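import Pool.Agent.Helper58.FL2.Flag2
import Pool.Agent.Helper91.FL2.WH
import Pool.Agent.Helper53.FL2.HmAdj
import Pool.Agent.Helper53.FL2.Inj

/-!
# FL2-V4: recursive description of the Segal and completeness conditions
-/

open CategoryTheory MonoidalCategory Opposite HomotopicalAlgebra

set_option autoImplicit false

namespace Helper41FL2

open FL Helper53FL2

section

variable {A : Type} [SmallCategory A]

/-- Locality only depends on the isomorphism class of an arrow. -/
theorem loc_of_arrow_iso' {X P Q P' Q' : SP A} {f : P ⟶ Q} {f' : P' ⟶ Q'} (e : P ≅ P')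
    (e' : Q ≅ Q') (h : f ≫ e'.hom = e.hom ≫ f') (hf : Loc X f) : Loc X f' := by
  have h1 : e.inv ≫ f ≫ e'.hom = f' := by rw [h, ← Category.assoc, e.inv_hom_id, Category.id_comp]
  let i : Mp P' X ≅ Mp P X :=
    { hom := Mp.pre e.hom X
      inv := Mp.pre e.inv X
      hom_inv_id := by
        show Mp.pre (e.inv ≫ e.hom) X = 𝟙 _
        rw [e.inv_hom_id]
        rfl
      inv_hom_id := by
        show Mp.pre (e.hom ≫ e.inv) X = 𝟙 _
        rw [e.hom_inv_id]
        rfl }
  let i' : Mp Q' X ≅ Mp Q X :=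
    { hom := Mp.pre e'.hom X
      inv := Mp.pre e'.inv X
      hom_inv_id := by
        show Mp.pre (e'.inv ≫ e'.hom) X = 𝟙 _
        rw [e'.inv_hom_id]
        rfl
      inv_hom_id := by
        show Mp.pre (e'.hom ≫ e'.inv) X = 𝟙 _
        rw [e'.hom_inv_id]
        rfl }
  refine Pool.Agent.Helper88.FL.hoEq_of_arrow_iso i'.symm i.symm ?_ hf
  show Mp.pre f X ≫ Mp.pre e.inv X = Mp.pre e'.inv X ≫ Mp.pre f' X
  show Mp.pre (e.inv ≫ f) X = Mp.pre (f' ≫ e'.inv) X
  rw [← h1, Category.assoc, Category.assoc, e'.hom_inv_id, Category.comp_id]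

end

section

variable {C : Type} [SmallCategory C]

/-- `V[1](h_c) ≅ h_{[1](c)}`. -/
def V1rep (c : C) : V1 (rep c) ≅ rep (seg c) where
  hom := (VGyo C).app (seg c)
  inv :=
    { app := fun η =>
        { app := fun k => ↾ fun (φ : η.unop ⟶ seg c) =>
            ({ f := Wr.Hom.f φ, g := fun i j h => Wr.Hom.g φ i j h } :
              VS (fun _ : Fin 1 => rep c) η.unop k)
          naturality := fun _ _ _ => rfl }
      naturality := fun η η' f => by
        refine NatTrans.ext (funext fun k => ?_)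
        refine ConcreteCategory.hom_ext _ _ fun (φ : η.unop ⟶ seg c) => ?_
        refine VS.ext' rfl fun i l h h' => ?_
        obtain ⟨j, hj, hj'⟩ := Jump.split (f := Wr.Hom.f f.unop) (g := Wr.Hom.f φ) h
        refine (Wr.comp_g f.unop φ hj hj').trans ?_
        exact (VS.mapθ_g f.unop ({ f := Wr.Hom.f φ, g := fun i j h => Wr.Hom.g φ i j h } :
              VS (fun _ : Fin 1 => rep c) η.unop k) hj hj').symm }
  hom_inv_id := rfl
  inv_hom_id := rfl

/-- `V[1](S) ≅` the suspension of `S`. -/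
def V1sieve {c : C} (S : Sieve c) : V1 (disc S.functor) ≅ disc (suspSieve S).functor where
  hom :=
    { app := fun η =>
        { app := fun k => ↾ fun (u : VS (fun _ : Fin 1 => disc S.functor) η.unop k) =>
            (⟨({ f := u.f, g := fun i j h => (u.g i j h).1 } : Wr.Hom η.unop (seg c)),
              fun i j h => (u.g i j h).2⟩ : (suspSieve S).functor.obj η)
          naturality := fun _ _ _ => rfl }
      naturality := fun η η' f => by
        refine NatTrans.ext (funext fun k => ?_)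
        refine ConcreteCategory.hom_ext _ _ fun
          (u : VS (fun _ : Fin 1 => disc S.functor) η.unop k) => ?_
        refine Subtype.ext ?_
        refine Wr.hom_ext' rfl fun i l h h' => ?_
        obtain ⟨j, hj, hj'⟩ := Jump.split (f := Wr.Hom.f f.unop) (g := u.f) h
        refine (congrArg Subtype.val (VS.mapθ_g f.unop u hj hj')).trans ?_
        exact (Wr.comp_g (X := η'.unop) (Y := η.unop) (Z := seg c) f.unop
          ({ f := u.f, g := fun i j h => (u.g i j h).1 } : Wr.Hom η.unop (seg c)) hj hj').symm }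
  inv :=
    { app := fun η =>
        { app := fun k => ↾ fun (φ : (suspSieve S).functor.obj η) =>
            ({ f := Wr.Hom.f φ.1, g := fun i j h => ⟨Wr.Hom.g φ.1 i j h, φ.2 i j h⟩ } :
              VS (fun _ : Fin 1 => disc S.functor) η.unop k)
          naturality := fun _ _ _ => rfl }
      naturality := fun η η' f => by
        refine NatTrans.ext (funext fun k => ?_)
        refine ConcreteCategory.hom_ext _ _ fun (φ : (suspSieve S).functor.obj η) => ?_
        refine VS.ext' rfl fun i l h h' => ?_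
        obtain ⟨j, hj, hj'⟩ := Jump.split (f := Wr.Hom.f f.unop) (g := Wr.Hom.f φ.1) h
        refine Eq.trans ?_ (VS.mapθ_g f.unop
          ({ f := Wr.Hom.f φ.1, g := fun i j h => ⟨Wr.Hom.g φ.1 i j h, φ.2 i j h⟩ } :
              VS (fun _ : Fin 1 => disc S.functor) η.unop k) hj hj').symm
        refine Subtype.ext ?_
        exact Wr.comp_g f.unop φ.1 hj hj' }
  hom_inv_id := rfl
  inv_hom_id := rfl

theorem V1sieve_incl {c : C} (S : Sieve c) :
    V1map (sieveIncl S) ≫ (V1rep c).hom = (V1sieve S).hom ≫ sieveIncl (suspSieve S) := rfl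

theorem loc_susp_iff {X : SP (Wr C)} {c : C} (S : Sieve c) :
    Loc X (sieveIncl (suspSieve S)) ↔ Loc X (V1map (sieveIncl S)) := by
  constructor
  · intro h
    refine loc_of_arrow_iso' (V1sieve S).symm (V1rep c).symm ?_ h
    rw [Iso.symm_hom, Iso.symm_hom, Iso.comp_inv_eq, Category.assoc, V1sieve_incl,
      ← Category.assoc, Iso.inv_hom_id, Category.id_comp]
  · intro h
    exact loc_of_arrow_iso' (V1sieve S) (V1rep c) (V1sieve_incl S) h

end

section

variable {n : ℕ}

theorem sg_succ_iff {X : SP (Th (n + 1))} (hX : InjFib X) (O : Set (Vt (C := Th n) X))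
    (hO : ∀ z : Vt (C := Th n) X, ∃ x ∈ O, Cn (X.obj (op (ptT (n + 1)))) x z) :
    Sg (n + 1) X ↔ SpLoc (C := Th n) X ∧ ∀ x ∈ O, ∀ y ∈ O, Sg n (Hm (C := Th n) X x y) := by
  constructor
  · rintro ⟨-, h⟩
    refine ⟨fun θ => h θ _ (SegCov.spine n θ), fun x hx y hy => ⟨Hm_injFib (C := Th n) hX x y, ?_⟩⟩
    intro θ S hS
    have h1 := h _ _ (SegCov.susp hS)
    have h2 := (loc_susp_iff (C := Th n) S).1 h1
    exact (loc_V1map_iff (C := Th n) hX (sieveIncl S) O hO).1 h2 x hx y hy
  · rintro ⟨h1, h2⟩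
    refine ⟨hX, fun θ S hS => ?_⟩
    cases hS with
    | spine _ θ => exact h1 θ
    | susp h =>
      refine (loc_susp_iff (C := Th n) _).2 ?_
      exact (loc_V1map_iff (C := Th n) hX (sieveIncl _) O hO).2 fun x hx y hy =>
        (h2 x hx y hy).2 _ _ h

theorem cj_succ_iff {j : ℕ} {X : SP (Th (n + 1))} (hX : InjFib X) (O : Set (Vt (C := Th n) X))
    (hO : ∀ z : Vt (C := Th n) X, ∃ x ∈ O, Cn (X.obj (op (ptT (n + 1)))) x z) :
    Cj (n + 1) (j + 1) X ↔ ∀ x ∈ O, ∀ y ∈ O, Cj n j (Hm (C := Th n) X x y) := by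
  constructor
  · intro h x hx y hy P Q f hf
    exact (loc_V1map_iff (C := Th n) hX f O hO).1 (h _ _ _ (IsComplJ.susp f hf)) x hx y hy
  · intro h P Q f hf
    cases hf with
    | susp f hf =>
      exact (loc_V1map_iff (C := Th n) hX f O hO).2 fun x hx y hy => h x hx y hy _ _ f hf

theorem cj_zero_iff {X : SP (Th (n + 1))} : Cj (n + 1) 0 X ↔ Loc X (isoMap (Th n)) := by
  constructor
  · intro h
    exact h _ _ _ (IsComplJ.base n)
  · intro h P Q f hf
    cases hf with
    | base _ => exact h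

theorem isCompl_iff {P Q : SP (Th n)} (f : P ⟶ Q) : IsCompl n f ↔ ∃ j, IsComplJ n j f := by
  constructor
  · intro h
    induction h with
    | base n => exact ⟨0, IsComplJ.base n⟩
    | susp f h ih =>
      obtain ⟨j, hj⟩ := ih
      exact ⟨j + 1, IsComplJ.susp f hj⟩
  · rintro ⟨j, hj⟩
    induction hj with
    | base n => exact IsCompl.base n
    | susp f h ih => exact IsCompl.susp f ih

theorem isCat_iff {X : SP (Th n)} : IsCat n X ↔ Sg n X ∧ ∀ j, Cj n j X := by
  constructor
  · rintro ⟨h1, h2, h3⟩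
    exact ⟨⟨h1, h2⟩, fun j P Q f hf => h3 P Q f ((isCompl_iff f).2 ⟨j, hf⟩)⟩
  · rintro ⟨⟨h1, h2⟩, h3⟩
    refine ⟨h1, h2, fun P Q f hf => ?_⟩
    obtain ⟨j, hj⟩ := (isCompl_iff f).1 hf
    exact h3 j P Q f hj

theorem sg_of_objHoEq {X Y : SP (Th n)} (hX : InjFib X) (hY : InjFib Y) {f : X ⟶ Y}
    (hf : ObjHoEq f) : Sg n X ↔ Sg n Y :=
  ⟨fun h => ⟨hY, fun θ S hS =>
      (Pool.Agent.Helper91.FL2.loc_iff_of_objHoEq hX hY hf (sieveIncl S)).1 (h.2 θ S hS)⟩,
    fun h => ⟨hX, fun θ S hS =>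
      (Pool.Agent.Helper91.FL2.loc_iff_of_objHoEq hX hY hf (sieveIncl S)).2 (h.2 θ S hS)⟩⟩

theorem cj_of_objHoEq {j : ℕ} {X Y : SP (Th n)} (hX : InjFib X) (hY : InjFib Y) {f : X ⟶ Y}
    (hf : ObjHoEq f) : Cj n j X ↔ Cj n j Y :=
  ⟨fun h P Q g hg =>
      (Pool.Agent.Helper91.FL2.loc_iff_of_objHoEq hX hY hf g).1 (h P Q g hg),
    fun h P Q g hg =>
      (Pool.Agent.Helper91.FL2.loc_iff_of_objHoEq hX hY hf g).2 (h P Q g hg)⟩

theorem isCat_of_objHoEq {X Y : SP (Th n)} (hX : InjFib X) (hY : InjFib Y) {f : X ⟶ Y}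
    (hf : ObjHoEq f) : IsCat n X ↔ IsCat n Y := by
  rw [isCat_iff, isCat_iff]
  exact and_congr (sg_of_objHoEq hX hY hf) (forall_congr' fun j => cj_of_objHoEq hX hY hf)

end

end Helper41FL2
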