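import Pool.Agent.Helper41.FL2.RR
import Pool.Agent.Helper41.FL2.V4
import Pool.Agent.Helper61.FL2.BSegA
import Pool.Agent.Helper61.FL2.BSegC

/-!
# FL2-V5: injectively fibrant replacement and mapping presheaves
-/

open CategoryTheory MonoidalCategory Opposite HomotopicalAlgebra

set_option autoImplicit false

namespace Helper41FL2

open FL Pool.Agent.Helper61.FL2 Helper53FL2

/-- The constant map. -/
def cstMap (K : SSet.{0}) {B : SSet.{0}} (b : B.obj (op (SimplexCategory.mk 0))) : K ⟶ B where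
  app k := ↾ fun _ => FL.cst B b k
  naturality k l α := by
    refine ConcreteCategory.hom_ext _ _ fun z => ?_
    exact (cst_map B b α).symm

/-- The fibres of a Kan fibration are Kan complexes. -/
theorem Fb_kan' {E B : SSet.{0}} {p : E ⟶ B} (hp : KanFib p)
    (b : B.obj (op (SimplexCategory.mk 0))) : SSet.KanComplex (Fb p b) := by
  refine Pool.Agent.Helper83.FL4.kan_of_lift fun n i t => ?_
  have h := hp n i
  have sq : CommSq (t ≫ Fb.ι p b) (SSet.horn (n + 1) i).ι p (cstMap _ b) := ⟨by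
    refine NatTrans.ext (funext fun k => ?_)
    refine ConcreteCategory.hom_ext _ _ fun z => ?_
    exact (t.app k z).2⟩
  refine ⟨{ app := fun k => ↾ fun z => ⟨sq.lift.app k z,
              ConcreteCategory.congr_hom (NatTrans.congr_app sq.fac_right k) z⟩
            naturality := fun k l α => ?_ }, ?_⟩
  · refine ConcreteCategory.hom_ext _ _ fun z => ?_
    exact Subtype.ext (sset_nat sq.lift α z)
  · refine NatTrans.ext (funext fun k => ?_)
    refine ConcreteCategory.hom_ext _ _ fun z => ?_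
    have e := ConcreteCategory.congr_hom (NatTrans.congr_app sq.fac_left k) z
    exact Subtype.ext e

section

variable {C : Type} [SmallCategory C]

theorem Hm_objKan {A : SP (Wr C)} (hA : VFib A) (x y : Vt A) : ObjKan (Hm A x y) :=
  fun c => Fb_kan' (hA.2 c.unop) (x, y)

theorem RR_vt {A : SP (Wr C)} (hA : ObjKan A) (z : Vt ((RR (Wr C)).obj A)) :
    ∃ x : Vt A, Cn (((RR (Wr C)).obj A).obj (op Wr.pt)) (vtMap ((RR (Wr C)).η A) x) z := by
  obtain ⟨g, -, h2⟩ := RR_objHoEq hA (op Wr.pt)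
  exact ⟨g.app _ z, Pool.Agent.Helper91.FL2.cn_of_htpy h2 z⟩

theorem exists_HmRR {A : SP (Wr C)} (hA : VFib A) (x y : Vt A) :
    ∃ g : (RR C).obj (Hm A x y) ⟶
      Hm ((RR (Wr C)).obj A) (vtMap ((RR (Wr C)).η A) x) (vtMap ((RR (Wr C)).η A) y),
      (RR C).η (Hm A x y) ≫ g = HmMap ((RR (Wr C)).η A) x y ∧ ObjHoEq g := by
  have h1 : ObjKan (Hm A x y) := Hm_objKan hA x y
  have h2 : InjFib ((RR (Wr C)).obj A) := RR_injFib hA.1
  have h3 := Hm_injFib h2 (vtMap ((RR (Wr C)).η A) x) (vtMap ((RR (Wr C)).η A) y)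
  obtain ⟨g, hg⟩ := h3 ((RR C).η (Hm A x y)) (RR_trivCof h1) (HmMap ((RR (Wr C)).η A) x y)
  refine ⟨g, hg, fun c => ?_⟩
  have h4 := HmMap_objHoEq hA (Helper53FL2.InjFib.vfib h2) (RR_objHoEq hA.1) x y c
  have e : ((RR C).η (Hm A x y)).app c ≫ g.app c = (HmMap ((RR (Wr C)).η A) x y).app c :=
    NatTrans.congr_app hg c
  refine Pool.Agent.Helper88.FL.hoEq_of_comp_left (h1 c) (RR_objKan h1 c)
    (Pool.Agent.Helper91.FL2.objKan_of_injFib h3 c) (RR_objHoEq h1 c) ?_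
  rw [e]
  exact h4

end

theorem sg_RR {n : ℕ} {A : SP (Th (n + 1))} (hV : VFib (C := Th n) A)
    (hB : BSeg (C := Th n) A)
    (hH : ∀ x y : Vt (C := Th n) A, Sg n ((RR (Th n)).obj (Hm (C := Th n) A x y))) :
    Sg (n + 1) ((RR (Th (n + 1))).obj A) := by
  have h2 : InjFib ((RR (Th (n + 1))).obj A) := RR_injFib hV.1
  refine (sg_succ_iff h2 (Set.range (vtMap (C := Th n) ((RR (Th (n + 1))).η A))) fun z => ?_).2
    ⟨?_, ?_⟩
  · obtain ⟨x, hx⟩ := RR_vt (C := Th n) hV.1 z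
    exact ⟨_, ⟨x, rfl⟩, hx⟩
  · exact (spLoc_iff (C := Th n) h2).2 (bSeg_of_objHoEq (C := Th n) hV (Helper53FL2.InjFib.vfib h2)
      (RR_objHoEq hV.1) hB)
  · rintro _ ⟨x, rfl⟩ _ ⟨y, rfl⟩
    obtain ⟨g, -, hg⟩ := exists_HmRR (C := Th n) hV x y
    exact (sg_of_objHoEq (RR_injFib (Hm_objKan hV x y)) (Hm_injFib (C := Th n) h2 _ _) hg).1
      (hH x y)

theorem cj_RR {n j : ℕ} {A : SP (Th (n + 1))} (hV : VFib (C := Th n) A)
    (hH : ∀ x y : Vt (C := Th n) A, Cj n j ((RR (Th n)).obj (Hm (C := Th n) A x y))) :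
    Cj (n + 1) (j + 1) ((RR (Th (n + 1))).obj A) := by
  have h2 : InjFib ((RR (Th (n + 1))).obj A) := RR_injFib hV.1
  refine (cj_succ_iff h2 (Set.range (vtMap (C := Th n) ((RR (Th (n + 1))).η A))) fun z => ?_).2 ?_
  · obtain ⟨x, hx⟩ := RR_vt (C := Th n) hV.1 z
    exact ⟨_, ⟨x, rfl⟩, hx⟩
  · rintro _ ⟨x, rfl⟩ _ ⟨y, rfl⟩
    obtain ⟨g, -, hg⟩ := exists_HmRR (C := Th n) hV x y
    exact (cj_of_objHoEq (RR_injFib (Hm_objKan hV x y)) (Hm_injFib (C := Th n) h2 _ _) hg).1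
      (hH x y)

end Helper41FL2
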