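import Mathlib

/-!
# Choosing between an object over `a` and `a`
-/

open CategoryTheory

set_option autoImplicit false

namespace Helper41FL2

variable {A : Type} [SmallCategory A]

section Sel

/-- `x` or `a`. -/
def selObj (s : Fin 2) (x a : A) : A := match s with
  | 0 => x
  | 1 => a

/-- The induced map. -/
def selMap : ∀ (s s' : Fin 2) (_ : s ≤ s') {x y a : A} (_ : x ⟶ y) (_ : y ⟶ a),
    (selObj s x a ⟶ selObj s' y a)
  | 0, 0, _, _, _, _, f, _ => f
  | 0, 1, _, _, _, _, f, v => f ≫ v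
  | 1, 1, _, _, _, a, _, _ => 𝟙 a
  | 1, 0, h, _, _, _, _, _ => absurd h (by decide)

/-- The induced map. -/
def selTo (s : Fin 2) {x a : A} (v : x ⟶ a) : selObj s x a ⟶ a := match s with
  | 0 => v
  | 1 => 𝟙 a

lemma selMap_id (s : Fin 2) {x a : A} (v : x ⟶ a) :
    selMap s s (le_refl _) (𝟙 x) v = 𝟙 _ := by
  fin_cases s <;> rfl

lemma selMap_comp {s s' s'' : Fin 2} (h : s ≤ s') (h' : s' ≤ s'') {x y z a : A} (f : x ⟶ y)
    (g : y ⟶ z) (v : y ⟶ a) (w : z ⟶ a) (hv : v = g ≫ w) :
    selMap s s' h f v ≫ selMap s' s'' h' g w = selMap s s'' (h.trans h') (f ≫ g) w := by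
  subst hv
  fin_cases s <;> fin_cases s' <;> fin_cases s''
  · rfl
  · exact (Category.assoc _ _ _).symm
  · exact absurd h' (by decide)
  · exact (Category.comp_id _).trans (Category.assoc _ _ _).symm
  · exact absurd h (by decide)
  · exact absurd h (by decide)
  · exact absurd h' (by decide)
  · exact Category.comp_id _

lemma selMap_selTo {s s' : Fin 2} (h : s ≤ s') {x y a : A} (f : x ⟶ y) (v : y ⟶ a) :
    selMap s s' h f v ≫ selTo s' v = selTo s (f ≫ v) := by
  fin_cases s <;> fin_cases s'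
  · rfl
  · exact Category.comp_id _
  · exact absurd h (by decide)
  · exact Category.comp_id _

lemma selMap_pre {s : Fin 2} {z x y a : A} (g : z ⟶ x) (f : x ⟶ y) (v : y ⟶ a) :
    selMap 0 s (Fin.zero_le _) (g ≫ f) v = (g ≫ selMap 0 s (Fin.zero_le _) f v : z ⟶ _) := by
  fin_cases s
  · rfl
  · exact Category.assoc _ _ _

end Sel

end Helper41FL2
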