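import Pool.Agent.Helper41.FL2.HomD
import Pool.Agent.Helper41.FL2.Sel
import Pool.Agent.Helper46.FL.PreHo

/-!
# FL2-G7: the injectively fibrant replacement
-/

open CategoryTheory MonoidalCategory Simplicial Opposite HomotopicalAlgebra

set_option autoImplicit false

namespace Helper41FL2

open FL

variable {A : Type} [SmallCategory A]

lemma Chain.ext_map {k : SimplexCategory} {o : Fin (k.len + 1) → A}
    {m m' : ∀ i j : Fin (k.len + 1), i ≤ j → (o i ⟶ o j)} {h1 h2 h1' h2'} (h : m = m') :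
    (Chain.mk o m h1 h2 : Chain A k) = Chain.mk o m' h1' h2' := by
  subst h
  rfl

lemma BrS.ext_map {k : SimplexCategory} {a b : A} {o : Fin (k.len + 1) → A}
    {m m' : ∀ i j : Fin (k.len + 1), i ≤ j → (o i ⟶ o j)} {h1 h2 h1' h2'} (h : m = m')
    {u u' : b ⟶ o 0} (hu : u = u') {v v' : o (Fin.last _) ⟶ a} (hv : v = v') :
    (BrS.mk (Chain.mk o m h1 h2 : Chain A k) u v : BrS a b k) =
      BrS.mk (Chain.mk o m' h1' h2') u' v' := by
  subst h
  subst hu
  subst hv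
  rfl

/-- The contraction of a chain over `a` to `a`. -/
def selChain {k : SimplexCategory} (t : k ⟶ ⦋1⦌) {a : A} (σ : Chain A k)
    (v : σ.obj (Fin.last _) ⟶ a) : Chain A k where
  obj i := selObj (t.toOrderHom i) (σ.obj i) a
  map i j h := selMap _ _ (t.toOrderHom.monotone h) (σ.map i j h)
    (σ.map j (Fin.last _) (Fin.le_last _) ≫ v)
  map_id i := by
    rw [σ.map_id]
    exact selMap_id _ _
  map_comp i j l h h' := by
    rw [selMap_comp, σ.map_comp]
    rw [← Category.assoc, σ.map_comp]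

/-- The contraction of the bar construction. -/
def selBr {k : SimplexCategory} (t : k ⟶ ⦋1⦌) {a b : A} (w : BrS a b k) : BrS a b k where
  σ := selChain t w.σ w.v
  u := selMap 0 (t.toOrderHom 0) (Fin.zero_le _) w.u
    (w.σ.map 0 (Fin.last _) (Fin.le_last _) ≫ w.v)
  v := selTo _ w.v

/-- The constant chain. -/
def cstChain (a : A) (k : SimplexCategory) : Chain A k where
  obj _ := a
  map _ _ _ := 𝟙 a
  map_id _ := rfl
  map_comp _ _ _ _ _ := Category.comp_id _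

/-- The constant map `[k] ⟶ [1]`. -/
def cst1 (k : SimplexCategory) (i : Fin 2) : k ⟶ ⦋1⦌ := SimplexCategory.Hom.mk
  ⟨fun _ => i, fun _ _ _ => le_refl _⟩

lemma selBr_zero {k : SimplexCategory} {a b : A} (w : BrS a b k) :
    selBr (cst1 k 0) w = w := rfl

lemma selBr_one {k : SimplexCategory} {a b : A} (w : BrS a b k) :
    selBr (cst1 k 1) w = ⟨cstChain a k, w.u ≫ w.σ.map 0 (Fin.last _) (Fin.le_last _) ≫ w.v,
      𝟙 a⟩ := rfl

lemma selBr_res {k l : SimplexCategory} (α : l ⟶ k) (t : k ⟶ ⦋1⦌) {a b : A} (w : BrS a b k) :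
    selBr (α ≫ t) ⟨w.σ.res α, w.u ≫ w.σ.zeroTo α, w.σ.map _ _ (Fin.le_last _) ≫ w.v⟩ =
      ⟨(selBr t w).σ.res α, (selBr t w).u ≫ (selBr t w).σ.zeroTo α,
        (selBr t w).σ.map _ _ (Fin.le_last _) ≫ (selBr t w).v⟩ := by
  obtain ⟨σ, u, v⟩ := w
  refine BrS.ext_map ?_ ?_ ?_
  · funext i j h
    refine congrArg (selMap _ _ _ _) ?_
    show σ.map _ _ _ ≫ σ.map _ _ _ ≫ v = σ.map _ _ _ ≫ v
    rw [← Category.assoc, σ.map_comp]
  · refine Eq.trans ?_ (selMap_comp (Fin.zero_le _) (t.toOrderHom.monotone (Fin.zero_le _)) u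
      (σ.map 0 (α.toOrderHom 0) (Fin.zero_le _))
      (σ.map 0 (Fin.last _) (Fin.le_last _) ≫ v)
      (σ.map (α.toOrderHom 0) (Fin.last _) (Fin.le_last _) ≫ v) ?_).symm
    · refine congrArg (selMap _ _ _ _) ?_
      show σ.map _ _ _ ≫ σ.map _ _ _ ≫ v = σ.map _ _ _ ≫ v
      rw [← Category.assoc, σ.map_comp]
    · rw [← Category.assoc, σ.map_comp]
  · have e := selMap_selTo (t.toOrderHom.monotone (Fin.le_last (α.toOrderHom (Fin.last _))))
      (σ.map (α.toOrderHom (Fin.last _)) (Fin.last _) (Fin.le_last _)) v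
    refine e.symm.trans ?_
    refine congrArg (· ≫ selTo (t.toOrderHom (Fin.last _)) v) ?_
    refine congrArg (selMap _ _ _ _) ?_
    show v = σ.map (Fin.last _) (Fin.last _) _ ≫ v
    rw [σ.map_id, Category.id_comp]

lemma selBr_left {k : SimplexCategory} (t : k ⟶ ⦋1⦌) {a b b' : A} (f : b' ⟶ b)
    (w : BrS a b k) : selBr t ⟨w.σ, f ≫ w.u, w.v⟩ =
      ⟨(selBr t w).σ, f ≫ (selBr t w).u, (selBr t w).v⟩ := by
  obtain ⟨σ, u, v⟩ := w
  exact congrArg (fun u => BrS.mk (selChain t σ v) u (selTo _ v)) (selMap_pre f u _)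

section

variable (X : SP A) (a : Aᵒᵖ)

/-- Evaluation at the constant chains. -/
def rEv : ((RR A).obj X).obj a ⟶ X.obj a where
  app k := ↾ fun y => rv (a := a) (k := k) y a k (𝟙 _) ⟨cstChain a.unop k.unop, 𝟙 _, 𝟙 _⟩
  naturality k l α := by
    refine ConcreteCategory.hom_ext _ _ fun y => ?_
    show rv ((((RR A).obj X).obj a).map α y) a l (𝟙 _) ⟨cstChain a.unop l.unop, 𝟙 _, 𝟙 _⟩ =
      (X.obj a).map α (rv y a k (𝟙 _) ⟨cstChain a.unop k.unop, 𝟙 _, 𝟙 _⟩)
    rw [rv_mapk]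
    refine Eq.trans ?_ (rv_right y a α (𝟙 _) ⟨cstChain a.unop k.unop, 𝟙 _, 𝟙 _⟩)
    have e : 𝟙 l.unop ≫ α.unop = α.unop ≫ 𝟙 _ := by simp
    rw [e]
    refine congrArg (rv _ _ _ _) ?_
    exact BrS.mk_congr (cstChain a.unop l.unop) (Category.comp_id _).symm
      (Category.comp_id _).symm

lemma η_rv (k : SimplexCategoryᵒᵖ) (x : (X.obj a).obj k) (b : Aᵒᵖ) (l : SimplexCategoryᵒᵖ)
    (s : l.unop ⟶ k.unop) (w : BrS a.unop b.unop l.unop) :
    rv ((((RR A).η X).app a).app k x) b l s w =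
      (X.map (Quiver.Hom.op ((w.u ≫ w.σ.map 0 (Fin.last _) (Fin.zero_le _)) ≫ w.v))).app l
        ((X.obj a).map s.op x) := rfl

theorem η_rEv : ((RR A).η X).app a ≫ rEv X a = 𝟙 _ := by
  refine NatTrans.ext (funext fun k => ?_)
  refine ConcreteCategory.hom_ext _ _ fun x => ?_
  show (X.map (Quiver.Hom.op ((𝟙 a.unop ≫ 𝟙 a.unop) ≫ 𝟙 a.unop))).app k
    ((X.obj a).map (𝟙 k.unop).op x) = x
  rw [Category.comp_id, Category.comp_id]
  exact (congrArg _ (sset_id _ x)).trans (sp_id X x)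

/-- The homotopy. -/
noncomputable def rHtpy : ((RR A).obj X).obj a ⊗ Δ[1] ⟶ ((RR A).obj X).obj a where
  app k := ↾ fun z =>
    ({ app := fun b l s w => rv (a := a) (k := k) z.1 b l s
          (selBr (s ≫ SSet.stdSimplex.objEquiv z.2) w)
       nat_left := fun {b b'} f l s w => by
        refine Eq.trans ?_ (rv_left z.1 f l s _)
        exact congrArg (rv z.1 b' l s) (selBr_left _ f.unop w)
       nat_right := fun b {l l'} α s w => by
        refine Eq.trans ?_ (rv_right z.1 b α s _)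
        refine congrArg (rv z.1 b l' (α.unop ≫ s)) ?_
        rw [Category.assoc]
        exact selBr_res α.unop _ w } : MpS (Bro a.unop) X k.unop)
  naturality k l α := by
    refine ConcreteCategory.hom_ext _ _ fun z => ?_
    refine rv_ext fun b m s w => ?_
    show rv ((((RR A).obj X).obj a).map α z.1) b m s (selBr (s ≫ α.unop ≫
      SSet.stdSimplex.objEquiv z.2) w) = rv z.1 b m (s ≫ α.unop)
        (selBr ((s ≫ α.unop) ≫ SSet.stdSimplex.objEquiv z.2) w)
    rw [rv_mapk, Category.assoc]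

lemma rHtpy_rv (k : SimplexCategoryᵒᵖ) (y : (((RR A).obj X).obj a).obj k)
    (t : (Δ[1] : SSet.{0}).obj k) (b : Aᵒᵖ) (l : SimplexCategoryᵒᵖ)
    (s : l.unop ⟶ k.unop) (w : BrS a.unop b.unop l.unop) :
    rv ((rHtpy X a).app k (y, t)) b l s w =
      rv y b l s (selBr (s ≫ SSet.stdSimplex.objEquiv t) w) := rfl

theorem rHtpy_zero : SSet.ι₀ ≫ rHtpy X a = 𝟙 _ := by
  refine NatTrans.ext (funext fun k => ?_)
  refine ConcreteCategory.hom_ext _ _ fun y => ?_
  refine rv_ext fun b l s w => ?_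
  exact congrArg (rv y b l s) (selBr_zero w)

theorem rHtpy_one : SSet.ι₁ ≫ rHtpy X a = rEv X a ≫ ((RR A).η X).app a := by
  refine NatTrans.ext (funext fun k => ?_)
  refine ConcreteCategory.hom_ext _ _ fun y => ?_
  refine rv_ext fun b l s w => ?_
  refine (congrArg (rv y b l s) (selBr_one w)).trans ?_
  show _ = (X.map (Quiver.Hom.op ((w.u ≫ w.σ.map 0 (Fin.last _) (Fin.zero_le _)) ≫ w.v))).app l
        ((X.obj a).map s.op (rv (a := a) (k := k) y a k (𝟙 _)
          ⟨cstChain a.unop k.unop, 𝟙 _, 𝟙 _⟩))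
  rw [← rv_right y a s.op (𝟙 _) ⟨cstChain a.unop k.unop, 𝟙 _, 𝟙 _⟩, ← rv_left]
  have e : s.op.unop ≫ 𝟙 k.unop = s := Category.comp_id s
  rw [e]
  refine congrArg (rv y b l s) ?_
  refine BrS.mk_congr (cstChain a.unop l.unop) ?_ ?_
  · show _ = ((w.u ≫ w.σ.map 0 (Fin.last _) (Fin.zero_le _)) ≫ w.v) ≫ 𝟙 _ ≫ 𝟙 _
    simp only [Category.comp_id, Category.assoc]
    rfl
  · exact (Category.comp_id _).symm

end

theorem RR_objKan {X : SP A} (hX : ObjKan X) : ObjKan ((RR A).obj X) :=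
  Pool.Agent.Helper46.FLb.InjFib.objKan (fun X {_} hZ => Pool.Agent.Helper83.FL4.Mp_kan X hZ)
    (RR_injFib hX)

theorem RR_objHoEq {X : SP A} (hX : ObjKan X) : ObjHoEq ((RR A).η X) := by
  intro a
  refine ⟨rEv X a, ?_, ?_⟩
  · rw [η_rEv]
    exact Pool.Agent.Helper45.FL2.htpy_refl _
  · refine Pool.Agent.Helper88.FL.htpy_symm (RR_objKan hX a) ?_
    exact Pool.Agent.Helper45.FL2.htpy_mk (rHtpy X a) (rHtpy_zero X a) (rHtpy_one X a)

theorem RR_trivCof {X : SP A} (hX : ObjKan X) : TrivCof ((RR A).η X) := by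
  refine ⟨fun a => ?_, fun a => Helper85FL.we_of_hoEq (RR_objHoEq hX a)⟩
  have h : Mono (((RR A).η X).app a ≫ rEv X a) := by
    rw [η_rEv]
    infer_instance
  exact mono_of_mono _ (rEv X a)

theorem RR_map_objHoEq {X Y : SP A} (hX : ObjKan X) (hY : ObjKan Y) {f : X ⟶ Y}
    (hf : ObjHoEq f) : ObjHoEq ((RR A).map f) := by
  intro a
  have e : f.app a ≫ ((RR A).η Y).app a = ((RR A).η X).app a ≫ ((RR A).map f).app a :=
    NatTrans.congr_app ((RR A).η_naturality f) a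
  refine Pool.Agent.Helper88.FL.hoEq_of_comp_left (hX a) (RR_objKan hX a) (RR_objKan hY a)
    (RR_objHoEq hX a) ?_
  rw [← e]
  exact Pool.Agent.Helper88.FL.hoEq_comp (hX a) (hY a) (RR_objKan hY a) (hf a) (RR_objHoEq hY a)

end Helper41FL2
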