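import Pool.Agent.Helper41.FL2.C6Dep
import Pool.Agent.Helper37.FL2.GoodV

/-!
# FL2-C6: one step of the completion

The stage `j` of the completion, followed by the fibrant replacement, keeps the Segal
conditions, creates completeness in dimension `j`, keeps completeness above `j`, and its
unit is essentially surjective in the sense `ES n n`.
-/

open CategoryTheory MonoidalCategory Opposite HomotopicalAlgebra

set_option autoImplicit false

namespace Helper41FL2

open FL

theorem stepDep : StepDep :=
  stepDep_of (fun j _ hX => Pool.Agent.Helper37.FL2.goodFr_Tfr j hX)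

/-- FL2-C6: one step of the completion. -/
theorem KJ_step {n j : ℕ} {X : SP (Th n)} (hX : Sg n X) :
    Sg n ((RR (Th n)).obj ((KJ n j).obj X)) ∧
    (j < n → Cj n j ((RR (Th n)).obj ((KJ n j).obj X))) ∧
    (∀ j', j < j' → Cj n j' X → Cj n j' ((RR (Th n)).obj ((KJ n j).obj X))) ∧
    ES n n ((KJ n j).η X ≫ (RR (Th n)).η ((KJ n j).obj X)) :=
  KJ_step_of stepDep hX

end Helper41FL2
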