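import Pool.Agent.Helper41.FL2.V5
import Pool.Agent.Helper81.FL2.Fib
import Pool.Agent.Helper25.FL2.HmKf
import Pool.Agent.Helper85.FL2.C4
import Pool.Agent.Helper61.FL2.ES

/-!
# FL2-C6: one step of the completion (core; remaining inputs as a structure)
-/

open CategoryTheory MonoidalCategory Opposite HomotopicalAlgebra

set_option autoImplicit false

namespace Helper41FL2

open FL Helper53FL2 Pool.Agent.Helper88.FL Pool.Agent.Helper91.FL2
open Pool.Agent.Helper61.FL2 (ES_comp ES_of_objHoEq HmMap_objHoEq)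
open Pool.Agent.Helper81.FL2 (Yc_kan)
open Pool.Agent.Helper25.FL2 (exists_HmKf VFr_pt_isIso)
open Helper85FL2 (T0_vt_surj)

/-- The inputs of the step. -/
structure StepDep : Prop where
  ext_cc : ∀ {A : Type} [SmallCategory A] (X P : SP A), Ext X (cc P)
  goodFr_Tfr : ∀ {n : ℕ} (j : ℕ) {X : SP (Th (n + 1))} (_ : Sg (n + 1) X),
    GoodFr (C := Th n) X (Tfr (n + 1) j)
  Kf_good : ∀ {C : Type} [SmallCategory C] {X : SP (Wr C)} (_ : InjFib X) {T : Fr (Wr C)}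
    (_ : GoodFr X T), VFib (Kf T X) ∧ BSeg (Kf T X)
  HmK0_objHoEq : ∀ {C : Type} [SmallCategory C] {X : SP (Wr C)} (_ : InjFib X) (_ : SpLoc X)
    (x y : Vt X), ObjHoEq (HmMap ((SFun.ofFrame (T0 C) (T0aug C)).η X) x y)
  K0_complete : ∀ {C : Type} [SmallCategory C] {X : SP (Wr C)} (_ : InjFib X) (_ : SpLoc X),
    Loc ((RR (Wr C)).obj (Kf (T0 C) X)) (isoMap C)

section

variable {A : Type} [SmallCategory A]

/-- Composition of objectwise equivalences. -/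
theorem objHoEq_comp {X Y Z : SP A} (hX : ObjKan X) (hY : ObjKan Y) (hZ : ObjKan Z) {f : X ⟶ Y}
    {g : Y ⟶ Z} (hf : ObjHoEq f) (hg : ObjHoEq g) : ObjHoEq (f ≫ g) :=
  fun a => hoEq_comp (hX a) (hY a) (hZ a) (hf a) (hg a)

theorem comp_swap {D : Type 1} [Category.{0} D] {a b c c' d e : D} (p : a ⟶ b) (q : b ⟶ c)
    (r : c ⟶ d) (s : d ⟶ e) (q' : b ⟶ c') (r' : c' ⟶ d) (h : q ≫ r = q' ≫ r') :
    (p ≫ q) ≫ (r ≫ s) = (p ≫ q') ≫ (r' ≫ s) := by
  rw [Category.assoc, Category.assoc, ← Category.assoc q, h, Category.assoc]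

theorem objHoEq_iso {X Y : SP A} (e : X ≅ Y) : ObjHoEq e.hom := fun a => by
  have : IsIso (e.hom.app a) := inferInstance
  exact hoEq_of_isIso _

/-- Yoneda: the augmentation of the constant frame is invertible. -/
theorem yoFr_isIso (X : SP A) (a : Aᵒᵖ) :
    IsIso (((SFun.ofFrame (yoFr A) (𝟙 (yoFr A))).η X).app a) := by
  refine ⟨⟨{ app := fun k => ↾ fun (φ : MpS (rep a.unop) X k.unop) =>
        φ.app a k (𝟙 _) (𝟙 a.unop : a.unop ⟶ a.unop)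
             naturality := fun k l α => ?_ }, ?_, ?_⟩⟩
  · refine ConcreteCategory.hom_ext _ _ fun (φ : MpS (rep a.unop) X k.unop) => ?_
    show φ.app a l (𝟙 _ ≫ α.unop) (𝟙 a.unop : a.unop ⟶ a.unop) = _
    refine Eq.trans ?_ (φ.nat_right a α (𝟙 _) (𝟙 a.unop : a.unop ⟶ a.unop))
    rw [Category.id_comp, Category.comp_id]
    rfl
  · refine NatTrans.ext (funext fun k => ?_)
    refine ConcreteCategory.hom_ext _ _ fun x => ?_
    show (X.map (Quiver.Hom.op (𝟙 a.unop))).app k ((X.obj a).map (𝟙 k.unop).op x) = x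
    exact (congrArg _ (sset_id (X.obj a) x)).trans (sp_id X x)
  · refine NatTrans.ext (funext fun k => ?_)
    refine ConcreteCategory.hom_ext _ _ fun (φ : MpS (rep a.unop) X k.unop) => ?_
    refine MpS.ext ?_
    funext b l s (u : b.unop ⟶ a.unop)
    show (X.map (Quiver.Hom.op u)).app l ((X.obj a).map s.op
      (φ.app a k (𝟙 _) (𝟙 a.unop : a.unop ⟶ a.unop))) = φ.app b l s u
    have e1 := φ.nat_right a s.op (𝟙 _) (𝟙 a.unop : a.unop ⟶ a.unop)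
    have e2 := φ.nat_left u.op l s (𝟙 a.unop : a.unop ⟶ a.unop)
    refine (congrArg ((X.map u.op).app l) e1.symm).trans ?_
    have e3 : s.op.unop ≫ 𝟙 k.unop = s := Category.comp_id s
    rw [e3]
    refine e2.symm.trans ?_
    exact congrArg (φ.app b l s) (Category.comp_id u)

end

section

variable {n : ℕ}

/-- Replacing a fibrant object by a weakly equivalent one. -/
theorem sg_RR_of {H H' : SP (Th n)} (hH : InjFib H) (hH' : ObjKan H') (f : H ⟶ H')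
    (hf : ObjHoEq f) : Sg n H ↔ Sg n ((RR (Th n)).obj H') :=
  sg_of_objHoEq hH (RR_injFib hH') (objHoEq_comp (objKan_of_injFib hH) hH' (RR_objKan hH') hf
    (RR_objHoEq hH'))

theorem cj_RR_of {j : ℕ} {H H' : SP (Th n)} (hH : InjFib H) (hH' : ObjKan H') (f : H ⟶ H')
    (hf : ObjHoEq f) : Cj n j H ↔ Cj n j ((RR (Th n)).obj H') :=
  cj_of_objHoEq hH (RR_injFib hH') (objHoEq_comp (objKan_of_injFib hH) hH' (RR_objKan hH') hf
    (RR_objHoEq hH'))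

theorem sg_RR_iso {H H' : SP (Th n)} (hH : ObjKan H) (hH' : ObjKan H') (f : H ⟶ H')
    (hf : ObjHoEq f) : Sg n ((RR (Th n)).obj H) ↔ Sg n ((RR (Th n)).obj H') :=
  sg_of_objHoEq (RR_injFib hH) (RR_injFib hH') (RR_map_objHoEq hH hH' hf)

theorem cj_RR_iso {j : ℕ} {H H' : SP (Th n)} (hH : ObjKan H) (hH' : ObjKan H') (f : H ⟶ H')
    (hf : ObjHoEq f) : Cj n j ((RR (Th n)).obj H) ↔ Cj n j ((RR (Th n)).obj H') :=
  cj_of_objHoEq (RR_injFib hH) (RR_injFib hH') (RR_map_objHoEq hH hH' hf)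

theorem cn_univ {C : Type} [SmallCategory C] {X : SP (Wr C)} :
    ∀ z : Vt X, ∃ x ∈ (Set.univ : Set (Vt X)), Cn (X.obj (op Wr.pt)) x z :=
  fun z => ⟨z, trivial, cn_refl z⟩

theorem HmMap_comp {C : Type} [SmallCategory C] {X Y Z : SP (Wr C)} (f : X ⟶ Y) (g : Y ⟶ Z)
    (x y : Vt X) : HmMap (f ≫ g) x y = HmMap f x y ≫ HmMap g (vtMap f x) (vtMap f y) := rfl

theorem KJ_objKan (W : StepDep) {n j : ℕ} {X : SP (Th n)} (hX : Sg n X) : ObjKan ((KJ n j).obj X) := by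
  cases n with
  | zero => exact fun a => Yc_kan hX.1 (W.ext_cc X _)
  | succ n => exact (W.Kf_good (C := Th n) hX.1 (W.goodFr_Tfr j hX)).1.1

theorem KJ_step_zero (W : StepDep) {j : ℕ} {X : SP (Th 0)} (hX : Sg 0 X) :
    Sg 0 ((RR (Th 0)).obj ((KJ 0 j).obj X)) ∧
    (j < 0 → Cj 0 j ((RR (Th 0)).obj ((KJ 0 j).obj X))) ∧
    (∀ j', j < j' → Cj 0 j' X → Cj 0 j' ((RR (Th 0)).obj ((KJ 0 j).obj X))) ∧
    ES 0 0 ((KJ 0 j).η X ≫ (RR (Th 0)).η ((KJ 0 j).obj X)) := by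
  have hK : ObjKan ((KJ 0 j).obj X) := KJ_objKan W hX
  refine ⟨⟨RR_injFib hK, fun θ S hS => by cases hS⟩, fun h => absurd h (Nat.not_lt_zero _),
    fun j' _ _ P Q f hf => (by cases hf), ?_⟩
  have h1 : HoEq (((KJ 0 j).η X).app (op (ptT 0))) := by
    have := yoFr_isIso (A := Th 0) X (op (ptT 0))
    exact hoEq_of_isIso (((SFun.ofFrame (yoFr (Th 0)) (𝟙 (yoFr (Th 0)))).η X).app (op (ptT 0)))
  exact hoEq_comp (objKan_of_injFib hX.1 _) (hK _) (RR_objKan hK _) h1 (RR_objHoEq hK _)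

theorem KJ_step_T0 (W : StepDep) {X : SP (Th (n + 1))} (hX : Sg (n + 1) X) :
    Sg (n + 1) ((RR (Th (n + 1))).obj ((KJ (n + 1) 0).obj X)) ∧
    (0 < n + 1 → Cj (n + 1) 0 ((RR (Th (n + 1))).obj ((KJ (n + 1) 0).obj X))) ∧
    (∀ j', 0 < j' → Cj (n + 1) j' X →
      Cj (n + 1) j' ((RR (Th (n + 1))).obj ((KJ (n + 1) 0).obj X))) ∧
    ES (n + 1) (n + 1) ((KJ (n + 1) 0).η X ≫ (RR (Th (n + 1))).η ((KJ (n + 1) 0).obj X)) := by
  obtain ⟨hS, hHm⟩ := (sg_succ_iff hX.1 Set.univ cn_univ).1 hX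
  obtain ⟨hV, hB⟩ : VFib (C := Th n) ((KJ (n + 1) 0).obj X) ∧ BSeg (C := Th n)
    ((KJ (n + 1) 0).obj X) := W.Kf_good (C := Th n) hX.1 (W.goodFr_Tfr 0 hX)
  have hsurj : ∀ z : Vt (C := Th n) ((KJ (n + 1) 0).obj X), ∃ x : Vt (C := Th n) X,
      vtMap (C := Th n) ((KJ (n + 1) 0).η X) x = z := T0_vt_surj (C := Th n) X
  have hH : ∀ x y : Vt (C := Th n) X, InjFib (Hm (C := Th n) X x y) :=
    fun x y => Hm_injFib (C := Th n) hX.1 x y
  have hH' : ∀ x y : Vt (C := Th n) ((KJ (n + 1) 0).obj X), ObjKan (Hm (C := Th n) _ x y) :=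
    fun x y => Hm_objKan (C := Th n) hV x y
  have hη : ∀ x y : Vt (C := Th n) X,
      ObjHoEq (HmMap (C := Th n) ((KJ (n + 1) 0).η X) x y) :=
    fun x y => W.HmK0_objHoEq (C := Th n) hX.1 hS x y
  refine ⟨?_, fun _ => ?_, ?_, ?_, ?_⟩
  · refine sg_RR hV hB fun a b => ?_
    obtain ⟨x, rfl⟩ := hsurj a
    obtain ⟨y, rfl⟩ := hsurj b
    exact (sg_RR_of (hH x y) (hH' _ _) _ (hη x y)).1 (hHm x trivial y trivial)
  · exact cj_zero_iff.2 (W.K0_complete (C := Th n) hX.1 hS)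
  · intro j' hj' hc
    obtain ⟨i, rfl⟩ : ∃ i, j' = i + 1 := ⟨j' - 1, by omega⟩
    have h2 := (cj_succ_iff hX.1 Set.univ cn_univ).1 hc
    refine cj_RR hV fun a b => ?_
    obtain ⟨x, rfl⟩ := hsurj a
    obtain ⟨y, rfl⟩ := hsurj b
    exact (cj_RR_of (hH x y) (hH' _ _) _ (hη x y)).1 (h2 x trivial y trivial)
  · intro z
    obtain ⟨a, ha⟩ := RR_vt (C := Th n) hV.1 z
    obtain ⟨x, rfl⟩ := hsurj a
    exact ⟨x, ha⟩
  · intro x y
    have h3 : InjFib ((RR (Th (n + 1))).obj ((KJ (n + 1) 0).obj X)) := RR_injFib hV.1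
    have h5 : InjFib (Hm (C := Th n) ((RR (Th (n + 1))).obj ((KJ (n + 1) 0).obj X))
      (vtMap (C := Th n) ((KJ (n + 1) 0).η X ≫ (RR (Th (n + 1))).η ((KJ (n + 1) 0).obj X)) x)
      (vtMap (C := Th n) ((KJ (n + 1) 0).η X ≫ (RR (Th (n + 1))).η ((KJ (n + 1) 0).obj X)) y)) :=
      Hm_injFib (C := Th n) h3 _ _
    refine ES_of_objHoEq (hH x y) h5 ?_
    have h4 := HmMap_objHoEq (C := Th n) hV (Helper53FL2.InjFib.vfib h3) (RR_objHoEq hV.1)
      (vtMap (C := Th n) ((KJ (n + 1) 0).η X) x) (vtMap (C := Th n) ((KJ (n + 1) 0).η X) y)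
    exact objHoEq_comp (objKan_of_injFib (hH x y)) (hH' _ _) (objKan_of_injFib h5) (hη x y) h4

theorem KJ_step_succ (W : StepDep) {j : ℕ}
    (ih : ∀ {X : SP (Th n)} (_ : Sg n X), Sg n ((RR (Th n)).obj ((KJ n j).obj X)) ∧
      (j < n → Cj n j ((RR (Th n)).obj ((KJ n j).obj X))) ∧
      (∀ j', j < j' → Cj n j' X → Cj n j' ((RR (Th n)).obj ((KJ n j).obj X))) ∧
      ES n n ((KJ n j).η X ≫ (RR (Th n)).η ((KJ n j).obj X)))
    {X : SP (Th (n + 1))} (hX : Sg (n + 1) X) :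
    Sg (n + 1) ((RR (Th (n + 1))).obj ((KJ (n + 1) (j + 1)).obj X)) ∧
    (j + 1 < n + 1 → Cj (n + 1) (j + 1) ((RR (Th (n + 1))).obj ((KJ (n + 1) (j + 1)).obj X))) ∧
    (∀ j', j + 1 < j' → Cj (n + 1) j' X →
      Cj (n + 1) j' ((RR (Th (n + 1))).obj ((KJ (n + 1) (j + 1)).obj X))) ∧
    ES (n + 1) (n + 1) ((KJ (n + 1) (j + 1)).η X ≫
      (RR (Th (n + 1))).η ((KJ (n + 1) (j + 1)).obj X)) := by
  obtain ⟨hS, hHm⟩ := (sg_succ_iff hX.1 Set.univ cn_univ).1 hX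
  obtain ⟨hV, hB⟩ : VFib (C := Th n) ((KJ (n + 1) (j + 1)).obj X) ∧ BSeg (C := Th n)
    ((KJ (n + 1) (j + 1)).obj X) := W.Kf_good (C := Th n) hX.1 (W.goodFr_Tfr (j + 1) hX)
  have hsurj : ∀ z : Vt (C := Th n) ((KJ (n + 1) (j + 1)).obj X), ∃ x : Vt (C := Th n) X,
      vtMap (C := Th n) ((KJ (n + 1) (j + 1)).η X) x = z := by
    intro z
    have : IsIso (((SFun.ofFrame (VFr (Tfr n j)) (VFrAug (TfrAug n j))).η X).app (op Wr.pt)) :=
      VFr_pt_isIso (C := Th n) (Tfr n j) (TfrAug n j) X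
    let i := inv (((SFun.ofFrame (VFr (Tfr n j)) (VFrAug (TfrAug n j))).η X).app (op Wr.pt))
    refine ⟨i.app _ z, ?_⟩
    exact ConcreteCategory.congr_hom (NatTrans.congr_app (IsIso.inv_hom_id
      (((SFun.ofFrame (VFr (Tfr n j)) (VFrAug (TfrAug n j))).η X).app (op Wr.pt))) _) z
  have hH : ∀ x y : Vt (C := Th n) X, InjFib (Hm (C := Th n) X x y) :=
    fun x y => Hm_injFib (C := Th n) hX.1 x y
  have hSg : ∀ x y : Vt (C := Th n) X, Sg n (Hm (C := Th n) X x y) :=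
    fun x y => hHm x trivial y trivial
  have hH' : ∀ x y : Vt (C := Th n) ((KJ (n + 1) (j + 1)).obj X),
      ObjKan (Hm (C := Th n) _ x y) := fun x y => Hm_objKan (C := Th n) hV x y
  have hK : ∀ x y : Vt (C := Th n) X, ObjKan ((KJ n j).obj (Hm (C := Th n) X x y)) :=
    fun x y => KJ_objKan W (hSg x y)
  have hη : ∀ x y : Vt (C := Th n) X, ∃ e : (KJ n j).obj (Hm (C := Th n) X x y) ≅
      Hm (C := Th n) ((KJ (n + 1) (j + 1)).obj X)
        (vtMap (C := Th n) ((KJ (n + 1) (j + 1)).η X) x)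
        (vtMap (C := Th n) ((KJ (n + 1) (j + 1)).η X) y),
      (KJ n j).η (Hm (C := Th n) X x y) ≫ e.hom =
        HmMap (C := Th n) ((KJ (n + 1) (j + 1)).η X) x y :=
    fun x y => exists_HmKf (C := Th n) (Tfr n j) (TfrAug n j) X x y
  refine ⟨?_, fun hj => ?_, ?_, ?_, ?_⟩
  · refine sg_RR hV hB fun a b => ?_
    obtain ⟨x, rfl⟩ := hsurj a
    obtain ⟨y, rfl⟩ := hsurj b
    obtain ⟨e, -⟩ := hη x y
    exact (sg_RR_iso (hK x y) (hH' _ _) e.hom (objHoEq_iso e)).1 (ih (hSg x y)).1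
  · refine cj_RR hV fun a b => ?_
    obtain ⟨x, rfl⟩ := hsurj a
    obtain ⟨y, rfl⟩ := hsurj b
    obtain ⟨e, -⟩ := hη x y
    exact (cj_RR_iso (hK x y) (hH' _ _) e.hom (objHoEq_iso e)).1
      ((ih (hSg x y)).2.1 (by omega))
  · intro j' hj' hc
    obtain ⟨i, rfl⟩ : ∃ i, j' = i + 1 := ⟨j' - 1, by omega⟩
    have h2 := (cj_succ_iff hX.1 Set.univ cn_univ).1 hc
    refine cj_RR hV fun a b => ?_
    obtain ⟨x, rfl⟩ := hsurj a
    obtain ⟨y, rfl⟩ := hsurj b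
    obtain ⟨e, -⟩ := hη x y
    exact (cj_RR_iso (hK x y) (hH' _ _) e.hom (objHoEq_iso e)).1
      ((ih (hSg x y)).2.2.1 i (by omega) (h2 x trivial y trivial))
  · intro z
    obtain ⟨a, ha⟩ := RR_vt (C := Th n) hV.1 z
    obtain ⟨x, rfl⟩ := hsurj a
    exact ⟨x, ha⟩
  · intro x y
    obtain ⟨e, he⟩ := hη x y
    obtain ⟨g, hg, hg'⟩ := exists_HmRR (C := Th n) hV
      (vtMap (C := Th n) ((KJ (n + 1) (j + 1)).η X) x)
      (vtMap (C := Th n) ((KJ (n + 1) (j + 1)).η X) y)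
    have h3 : InjFib ((RR (Th (n + 1))).obj ((KJ (n + 1) (j + 1)).obj X)) := RR_injFib hV.1
    have h5 : InjFib (Hm (C := Th n) ((RR (Th (n + 1))).obj ((KJ (n + 1) (j + 1)).obj X))
      (vtMap (C := Th n) ((KJ (n + 1) (j + 1)).η X ≫
        (RR (Th (n + 1))).η ((KJ (n + 1) (j + 1)).obj X)) x)
      (vtMap (C := Th n) ((KJ (n + 1) (j + 1)).η X ≫
        (RR (Th (n + 1))).η ((KJ (n + 1) (j + 1)).obj X)) y)) :=
      Hm_injFib (C := Th n) h3 _ _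
    have h6 := (ih (hSg x y)).2.2.2
    have h7 : InjFib ((RR (Th n)).obj ((KJ n j).obj (Hm (C := Th n) X x y))) :=
      RR_injFib (hK x y)
    have e1 : HmMap (C := Th n) ((KJ (n + 1) (j + 1)).η X ≫
        (RR (Th (n + 1))).η ((KJ (n + 1) (j + 1)).obj X)) x y =
        ((KJ n j).η (Hm (C := Th n) X x y) ≫ (RR (Th n)).η _) ≫ ((RR (Th n)).map e.hom ≫ g) := by
      refine (HmMap_comp (C := Th n) _ _ x y).trans ?_
      refine (congrArg₂ (· ≫ ·) he.symm hg.symm).trans ?_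
      exact comp_swap _ _ _ _ _ _ ((RR (Th n)).η_naturality e.hom)
    have h8 : ES n n (((KJ n j).η (Hm (C := Th n) X x y) ≫ (RR (Th n)).η _) ≫
        ((RR (Th n)).map e.hom ≫ g)) := by
      refine ES_comp h7 h5 (hH x y) h6 (ES_of_objHoEq h7 h5 ?_)
      exact objHoEq_comp (objKan_of_injFib h7) (RR_objKan (hH' _ _)) (objKan_of_injFib h5)
        (RR_map_objHoEq (hK x y) (hH' _ _) (objHoEq_iso e)) hg'
    rw [← e1] at h8
    exact h8

theorem KJ_step_of (W : StepDep) {n j : ℕ} {X : SP (Th n)} (hX : Sg n X) :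
    Sg n ((RR (Th n)).obj ((KJ n j).obj X)) ∧
    (j < n → Cj n j ((RR (Th n)).obj ((KJ n j).obj X))) ∧
    (∀ j', j < j' → Cj n j' X → Cj n j' ((RR (Th n)).obj ((KJ n j).obj X))) ∧
    ES n n ((KJ n j).η X ≫ (RR (Th n)).η ((KJ n j).obj X)) := by
  induction n generalizing j with
  | zero => exact KJ_step_zero W hX
  | succ n ih =>
    cases j with
    | zero => exact KJ_step_T0 W hX
    | succ j => exact KJ_step_succ W (fun hX => ih hX) hX

end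

end Helper41FL2
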