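import Pool.Agent.Helper41.FL2.C6Core
import Pool.Agent.Helper91.FL2.Comp0
import Pool.Agent.Helper43.FL2.Good
import Pool.Agent.Helper55.FL2.GPe

/-!
# FL2-C6: one step of the completion, all inputs except the goodness of the frames `Tfr`
-/

open CategoryTheory MonoidalCategory Opposite HomotopicalAlgebra

set_option autoImplicit false

namespace Helper41FL2

open FL

/-- C4, exact form. -/
theorem HmK0_objHoEq {C : Type} [SmallCategory C] {X : SP (Wr C)} (hX : InjFib X)
    (hS : SpLoc X) (x y : Vt X) :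
    ObjHoEq (HmMap ((SFun.ofFrame (T0 C) (T0aug C)).η X) x y) := by
  have hK := Pool.Agent.Helper91.FL2.kf_good hX (Pool.Agent.Helper43.FL2.goodFr_T0 hX hS)
  exact Helper85FL2.HmK0_objHoEq_of hX hK.1.2 (fun c hF =>
    Pool.Agent.Helper55.FL2.relMap_hoEq hX _
      (fun m => Pool.Agent.Helper43.FL2.E0rel_seg hX hS c m 0) (hK.1.1 (op (seg c))) hF) x y

/-- The inputs of the step, given that the frames `Tfr` are good. -/
theorem stepDep_of (h : ∀ {n : ℕ} (j : ℕ) {X : SP (Th (n + 1))} (_ : Sg (n + 1) X),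
    GoodFr (C := Th n) X (Tfr (n + 1) j)) : StepDep where
  ext_cc X P := Pool.Agent.Helper43.FL2.ext_cc X P
  goodFr_Tfr j _ hX := h j hX
  Kf_good hX _ hT := Pool.Agent.Helper91.FL2.kf_good hX hT
  HmK0_objHoEq hX hS x y := HmK0_objHoEq hX hS x y
  K0_complete hX hS := Pool.Agent.Helper91.FL2.K0_complete hX hS

end Helper41FL2
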