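import Pool.Agent.Helper41.FL2.F2a
import Pool.Agent.Helper41.FL2.V4
import Pool.Agent.Helper54.FL2.Fib

/-!
# FL2-F2: mapping objects of flagged categories
-/

open CategoryTheory MonoidalCategory Opposite HomotopicalAlgebra

set_option autoImplicit false

namespace Helper41FL2

open FL Helper53FL2 Pool.Agent.Helper30.FL16

/-- Products of Kan complexes are Kan complexes. -/
theorem kan_prod {K L : SSet.{0}} (hK : SSet.KanComplex K) (hL : SSet.KanComplex L) :
    SSet.KanComplex (K ⊗ L) := by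
  refine Pool.Agent.Helper83.FL4.kan_of_lift fun n i f => ?_
  obtain ⟨g1, h1⟩ := SSet.KanComplex.hornFilling (S := K)
    (f ≫ CartesianMonoidalCategory.fst K L)
  obtain ⟨g2, h2⟩ := SSet.KanComplex.hornFilling (S := L)
    (f ≫ CartesianMonoidalCategory.snd K L)
  refine ⟨CartesianMonoidalCategory.lift g1 g2, ?_⟩
  refine CartesianMonoidalCategory.hom_ext _ _ ?_ ?_
  · rw [Category.assoc, CartesianMonoidalCategory.lift_fst]
    exact h1.symm
  · rw [Category.assoc, CartesianMonoidalCategory.lift_snd]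
    exact h2.symm

section

variable {C : Type} [SmallCategory C]

/-- Mapping presheaves between equal vertices. -/
def HmCongr (X : SP (Wr C)) {x x' y y' : Vt X} (hx : x = x') (hy : y = y') :
    Hm X x y ≅ Hm X x' y' where
  hom :=
    { app := fun c => { app := fun k => ↾ fun z => ⟨z.1, by rw [← hx, ← hy]; exact z.2⟩
                        naturality := fun _ _ _ => rfl }
      naturality := fun _ _ _ => rfl }
  inv :=
    { app := fun c => { app := fun k => ↾ fun z => ⟨z.1, by rw [hx, hy]; exact z.2⟩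
                        naturality := fun _ _ _ => rfl }
      naturality := fun _ _ _ => rfl }
  hom_inv_id := rfl
  inv_hom_id := rfl

theorem HmCongr_val (X : SP (Wr C)) {x x' y y' : Vt X} (hx : x = x') (hy : y = y')
    {c : Cᵒᵖ} {k : SimplexCategoryᵒᵖ} (z : ((Hm X x y).obj c).obj k) :
    Hm.val (((HmCongr X hx hy).hom.app c).app k z) = Hm.val z := rfl

lemma segMap_id (c : C) : segMap (𝟙 c) = 𝟙 (seg c) := by
  refine Wr.hom_ext' rfl fun i j h h' => ?_
  obtain rfl : i = j := jump_id.mp h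
  exact Wr.ofComp_g (X := fun _ => c) (Y := fun _ => c) _ i h

/-- Injective fibrations are stable under composition with isomorphisms. -/
theorem injFibration_of_comp_iso {A : Type} [SmallCategory A] {X Y Z : SP A} {q : X ⟶ Y}
    (e : Y ≅ Z) (h : InjFibration (q ≫ e.hom)) : InjFibration q := by
  intro P Q i hi
  have := h i hi
  refine ⟨fun {f g} sq => ?_⟩
  have sq' : CommSq f i (q ≫ e.hom) (g ≫ e.hom) := ⟨by
    rw [← Category.assoc, sq.w, Category.assoc]⟩
  refine ⟨⟨{ l := sq'.lift, fac_left := sq'.fac_left, fac_right := ?_ }⟩⟩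
  have h1 := sq'.fac_right
  rw [← Category.assoc] at h1
  exact (cancel_mono e.hom).1 h1

end

variable {n : ℕ}

/-- The maps between the levels of `FHm D x y`. -/
theorem FHm_levelMap (D : SP (Gn (n + 1))) (x y : Vt (C := Th n) (level D 0))
    {i j : Fin (n + 1)} (h : i ≤ j) (h' : i.succ ≤ j.succ) :
    ∃ e : level (FHm D x y) j ≅ Hm (C := Th n) (level D j.succ)
        (vtMap (C := Th n) (levelMap D h') (vlev D x i.succ))
        (vtMap (C := Th n) (levelMap D h') (vlev D y i.succ)),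
      levelMap (FHm D x y) h ≫ e.hom =
        HmMap (C := Th n) (levelMap D h') (vlev D x i.succ) (vlev D y i.succ) := by
  refine ⟨HmCongr (C := Th n) (level D j.succ) (levelMap_cst D h' x).symm
    (levelMap_cst D h' y).symm, ?_⟩
  refine NatTrans.ext (funext fun c => NatTrans.ext (funext fun k => ?_))
  refine ConcreteCategory.hom_ext _ _ fun z => ?_
  refine Subtype.ext ?_
  show (D.map (Quiver.Hom.op ((segG n).map ((𝟙 c.unop, (homOfLE h).op) :
      ((c.unop, op j) : Gn n) ⟶ (c.unop, op i))))).app k z.1 =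
    (D.map (Quiver.Hom.op ((𝟙 (seg c.unop), (homOfLE h').op) :
      (seg c.unop, op j.succ) ⟶ (seg c.unop, op i.succ)))).app k z.1
  refine congrArg (fun t => (D.map (Quiver.Hom.op t)).app k z.1) ?_
  exact Prod.ext (segMap_id (C := Th n) c.unop) (Subsingleton.elim _ _)

theorem FHm_injFib {D : SP (Gn (n + 1))} (hD : InjFib D) (x y : Vt (C := Th n) (level D 0)) :
    InjFib (FHm D x y) := by
  refine injFib_of_levels (fun i => ?_) (fun i j h => ?_)
  · exact Hm_injFib (C := Th n)
      (level_injFib_of Pool.Agent.Helper91.FL17a.tool hD i.succ) (vlev D x i.succ)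
      (vlev D y i.succ)
  · obtain ⟨e, he⟩ := FHm_levelMap D x y h (Fin.succ_le_succ_iff.mpr h)
    refine injFibration_of_comp_iso e ?_
    rw [he]
    exact HmMap_injFibration (C := Th n)
      (levelMap_injFibration_of Pool.Agent.Helper91.FL17a.tool hD _) _ _

theorem FHm_isCat {Z : SP (Th (n + 1))} (hZ : IsCat (n + 1) Z) (x y : Vt (C := Th n) Z) :
    IsCat n (Hm (C := Th n) Z x y) := by
  have hO : ∀ z : Vt (C := Th n) Z, ∃ x ∈ (Set.univ : Set (Vt (C := Th n) Z)),
      Cn (Z.obj (op (ptT (n + 1)))) x z :=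
    fun z => ⟨z, trivial, Pool.Agent.Helper91.FL2.cn_refl z⟩
  obtain ⟨h1, h2⟩ := isCat_iff.1 hZ
  refine isCat_iff.2 ⟨((sg_succ_iff hZ.inj Set.univ hO).1 h1).2 x trivial y trivial, fun j => ?_⟩
  exact (cj_succ_iff hZ.inj Set.univ hO).1 (h2 (j + 1)) x trivial y trivial

theorem Hm_truncated {Z : SP (Th (n + 1))} (hZ : InjFib Z) {i : ℕ} (h : Truncated (i + 1) Z)
    (x y : Vt (C := Th n) Z) : Truncated i (Hm (C := Th n) Z x y) := by
  intro c
  have hV := Helper53FL2.InjFib.vfib (C := Th n) hZ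
  have h1 : HoEq (Z.map (Quiver.Hom.op (segMap ((trUnit n i).app c)))) := h (seg c)
  have hk : SSet.KanComplex (Z.obj (op (Wr.pt : Wr (Th n))) ⊗ Z.obj (op (Wr.pt : Wr (Th n)))) := by
    have h2 : SSet.KanComplex (Z.obj (op (Wr.pt : Wr (Th n)))) :=
      Pool.Agent.Helper91.FL2.objKan_of_injFib hZ _
    exact kan_prod h2 h2
  exact Pool.Agent.Helper54.FL2.Fb_map_hoEq (hV.2 ((tr n i).obj c)) (hV.2 c) hk hk
    (Z.map (Quiver.Hom.op (segMap ((trUnit n i).app c)))) (𝟙 _)
    ((ends_nat (C := Th n) Z ((trUnit n i).app c)).trans (Category.comp_id _).symm) h1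
    (Pool.Agent.Helper88.FL.hoEq_of_isIso _) (x, y)

theorem FHm_levelMap_val (D : SP (Gn (n + 1))) (x y : Vt (C := Th n) (level D 0))
    {i j : Fin (n + 1)} (h : i ≤ j) (h' : i.succ ≤ j.succ) (c : (Th n)ᵒᵖ)
    (k : SimplexCategoryᵒᵖ) (z : ((level (FHm D x y) i).obj c).obj k) :
    Subtype.val (((levelMap (FHm D x y) h).app c).app k z) =
      ((levelMap D h').app (op (seg c.unop : Wr (Th n)))).app k (Subtype.val z) := by
  show (D.map (Quiver.Hom.op ((segG n).map ((𝟙 c.unop, (homOfLE h).op) :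
      ((c.unop, op j) : Gn n) ⟶ (c.unop, op i))))).app k (Subtype.val z) =
    (D.map (Quiver.Hom.op ((𝟙 (seg c.unop), (homOfLE h').op) :
      (seg c.unop, op j.succ) ⟶ (seg c.unop, op i.succ)))).app k (Subtype.val z)
  refine congrArg (fun t => (D.map (Quiver.Hom.op t)).app k (Subtype.val z)) ?_
  exact Prod.ext (segMap_id (C := Th n) c.unop) (Subsingleton.elim _ _)

lemma V1map_vsEnd {C : Type} [SmallCategory C] {P Q : SP C} (b : P ⟶ Q) (i : Fin 2)
    (k : SimplexCategoryᵒᵖ) :
    ((V1map b).app (op Wr.pt)).app k (vsEnd P i Wr.pt k) = vsEnd Q i Wr.pt k :=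
  VS.ext' rfl fun p => p.elim0

lemma V1map_vsOf {C : Type} [SmallCategory C] {P Q : SP C} (b : P ⟶ Q) (c : Cᵒᵖ)
    (k : SimplexCategoryᵒᵖ) (p : (P.obj c).obj k) :
    ((V1map b).app (op (seg c.unop))).app k (vsOf P p) = vsOf Q ((b.app c).app k p) := rfl

lemma endsEq_post {C : Type} [SmallCategory C] {B : SP C} {X Y : SP (Wr C)} {G : V1 B ⟶ X}
    {x y : Vt X} (h : EndsEq G x y) (q : X ⟶ Y) : EndsEq (G ≫ q) (vtMap q x) (vtMap q y) :=
  ⟨congrArg ((q.app (op Wr.pt)).app _) h.1, congrArg ((q.app (op Wr.pt)).app _) h.2⟩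

lemma endsEq_pre {C : Type} [SmallCategory C] {P Q : SP C} {X : SP (Wr C)} {G : V1 Q ⟶ X}
    {x y : Vt X} (b : P ⟶ Q) : EndsEq (V1map b ≫ G) x y ↔ EndsEq G x y := by
  have h : ∀ i : Fin 2, ((V1map b ≫ G).app (op Wr.pt)).app (op (SimplexCategory.mk 0))
      (vsEnd P i Wr.pt _) = (G.app (op Wr.pt)).app (op (SimplexCategory.mk 0))
      (vsEnd Q i Wr.pt _) := fun i => congrArg ((G.app (op Wr.pt)).app _) (V1map_vsEnd b i _)
  show (_ ∧ _) ↔ (_ ∧ _)
  rw [h 0, h 1]

theorem FHm_surj {D : SP (Gn (n + 1))} (hD : Flagged D) (x y : Vt (C := Th n) (level D 0))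
    (i j : Fin (n + 1)) (h : i ≤ j) (k : ℕ) (hk : k ≤ i.1) (P Q : SP (Th n)) (b : P ⟶ Q)
    (hb : IsBd n k b) (u : P ⟶ level (FHm D x y) i) (v : Q ⟶ level (FHm D x y) j)
    (huv : u ≫ levelMap (FHm D x y) h = b ≫ v) :
    ∃ z : Q ⟶ level (FHm D x y) i, b ≫ z = u ∧ z ≫ levelMap (FHm D x y) h = v := by
  have h' : i.succ ≤ j.succ := Fin.succ_le_succ_iff.mpr h
  obtain ⟨U, hU1, hU2⟩ := exists_V1_of_hom (C := Th n) (X := level D i.succ)
    (x := vlev D x i.succ) (y := vlev D y i.succ) u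
  obtain ⟨V, hV1, hV2⟩ := exists_V1_of_hom (C := Th n) (X := level D j.succ)
    (x := vlev D x j.succ) (y := vlev D y j.succ) v
  have e1 : U ≫ levelMap D h' = V1map b ≫ V := by
    refine V1_hom_ext (C := Th n) (x := vlev D x j.succ) (y := vlev D y j.succ) ?_
      ((endsEq_pre (C := Th n) b).2 hV1) fun c l p => ?_
    · have := endsEq_post (C := Th n) hU1 (levelMap D h')
      rw [levelMap_cst, levelMap_cst] at this
      exact this
    · show ((levelMap D h').app (op (seg c.unop : Wr (Th n)))).app l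
          ((U.app (op (seg c.unop : Wr (Th n)))).app l (vsOf P p)) =
        (V.app (op (seg c.unop : Wr (Th n)))).app l (vsOf Q ((b.app c).app l p))
      rw [← hU2, ← hV2]
      refine (FHm_levelMap_val D x y h h' c l ((u.app c).app l p)).symm.trans ?_
      exact congrArg Subtype.val (congrArg (fun t => (t.app c).app l p) huv)
  obtain ⟨Z, hZ1, hZ2⟩ := hD.surj i.succ j.succ h' (k + 1) (Nat.succ_le_succ hk) _ _ (V1map b)
    (IsBd.susp b hb) U V e1
  have hZe : EndsEq (C := Th n) Z (vlev D x i.succ) (vlev D y i.succ) := by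
    refine (endsEq_pre (C := Th n) b).1 ?_
    have e2 : EndsEq (C := Th n) (V1map b ≫ Z) (vlev D x i.succ) (vlev D y i.succ) ↔
        EndsEq (C := Th n) U (vlev D x i.succ) (vlev D y i.succ) :=
      iff_of_eq (congrArg (fun t => EndsEq (C := Th n) t (vlev D x i.succ) (vlev D y i.succ)) hZ1)
    exact e2.2 hU1
  obtain ⟨z, hz⟩ := exists_hom_of_V1 (C := Th n) Z hZe
  refine ⟨z, ?_, ?_⟩
  · refine NatTrans.ext (funext fun c => NatTrans.ext (funext fun l => ?_))
    refine ConcreteCategory.hom_ext _ _ fun p => ?_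
    refine Subtype.ext ?_
    refine (hz c l ((b.app c).app l p)).trans ?_
    refine Eq.trans ?_ (hU2 c l p).symm
    exact congrArg (fun t => (t.app (op (seg c.unop : Wr (Th n)))).app l (vsOf P p)) hZ1
  · refine NatTrans.ext (funext fun c => NatTrans.ext (funext fun l => ?_))
    refine ConcreteCategory.hom_ext _ _ fun q => ?_
    refine Subtype.ext ?_
    refine (FHm_levelMap_val D x y h h' c l ((z.app c).app l q)).trans ?_
    refine Eq.trans ?_ (hV2 c l q).symm
    refine Eq.trans ?_ (congrArg (fun t => (t.app (op (seg c.unop : Wr (Th n)))).app l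
      (vsOf Q q)) hZ2)
    exact congrArg (((levelMap D h').app (op (seg c.unop : Wr (Th n)))).app l) (hz c l q)

theorem FHm_flagged {D : SP (Gn (n + 1))} (hD : Flagged D) (x y : Vt (C := Th n) (level D 0)) :
    Flagged (FHm D x y) where
  inj := FHm_injFib hD.inj x y
  cat i := FHm_isCat (hD.cat i.succ) (vlev D x i.succ) (vlev D y i.succ)
  trunc i := Hm_truncated (hD.cat i.succ).inj (hD.trunc i.succ) (vlev D x i.succ)
    (vlev D y i.succ)
  surj i j h k hk P Q b hb u v huv := FHm_surj hD x y i j h k hk P Q b hb u v huv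

end Helper41FL2
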