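import Pool.Agent.Helper58.FL2.Flag2
import Pool.Agent.Helper91.FL2.WH
import Pool.Agent.Helper53.FL2.HmAdj
import Pool.Agent.Helper53.FL2.Inj
import Pool.Agent.Helper91.FL.GauntFinal

/-!
# FL2-F2: injective fibrancy by levels, maps into mapping presheaves
-/

open CategoryTheory MonoidalCategory Opposite HomotopicalAlgebra

set_option autoImplicit false

namespace Helper41FL2

open FL Helper53FL2 Pool.Agent.Helper30.FL16

section Levels

variable {n : ℕ} {P Q D : SP (Gn n)}

/-- An extension at the level `k`. -/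
structure LSt (g : P ⟶ Q) (f : P ⟶ D) (k : Fin (n + 1)) : Type where
  l : level Q k ⟶ level D k
  hl : levelHom g k ≫ l = levelHom f k

theorem lev_compat {ℓ : ∀ k : Fin (n + 1), level Q k ⟶ level D k}
    (hℓ : ∀ i : Fin n, ℓ i.castSucc ≫ levelMap D (Fin.castSucc_le_succ i) =
      levelMap Q (Fin.castSucc_le_succ i) ≫ ℓ i.succ)
    (i k : Fin (n + 1)) (h : i ≤ k) : ℓ i ≫ levelMap D h = levelMap Q h ≫ ℓ k := by
  induction k using Fin.induction with
  | zero =>
    obtain rfl : i = 0 := Fin.le_zero_iff.mp h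
    rw [levelMap_id, levelMap_id, Category.comp_id, Category.id_comp]
  | succ k ih =>
    rcases eq_or_lt_of_le h with h1 | h1
    · subst h1
      rw [levelMap_id, levelMap_id, Category.comp_id, Category.id_comp]
    · have h2 : i ≤ k.castSucc := Fin.le_castSucc_iff.mpr h1
      have h3 := ih h2
      have h4 := hℓ k
      calc ℓ i ≫ levelMap D h = (ℓ i ≫ levelMap D h2) ≫ levelMap D (Fin.castSucc_le_succ k) := by
            rw [Category.assoc, levelMap_comp]
        _ = levelMap Q h2 ≫ levelMap Q (Fin.castSucc_le_succ k) ≫ ℓ k.succ := by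
            rw [h3, Category.assoc, h4]
        _ = levelMap Q h ≫ ℓ k.succ := by
            rw [← Category.assoc, levelMap_comp]

/-- A compatible family of maps on the levels is a map. -/
theorem lev_assemble (ℓ : ∀ k : Fin (n + 1), level Q k ⟶ level D k)
    (hℓ : ∀ (i k : Fin (n + 1)) (h : i ≤ k), ℓ i ≫ levelMap D h = levelMap Q h ≫ ℓ k) :
    ∃ Φ : Q ⟶ D, ∀ k, levelHom Φ k = ℓ k := by
  refine ⟨
    { app := fun a => (ℓ a.unop.2.unop).app (op a.unop.1)
      naturality := fun a b f => ?_ }, fun k => rfl⟩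
  refine NatTrans.ext (funext fun m => ?_)
  refine ConcreteCategory.hom_ext _ _ fun x => ?_
  have hab : a.unop.2.unop ≤ b.unop.2.unop := leOfHom f.unop.2.unop
  have h1 : f = gm (𝟙 a.unop.1) hab ≫ gm f.unop.1 (le_refl b.unop.2.unop) :=
    gm_eq _ _ (Category.comp_id _).symm
  have h2 : ((ℓ b.unop.2.unop).app (op a.unop.1)).app m
      ((Q.map (gm (𝟙 a.unop.1) hab)).app m x) =
      (D.map (gm (𝟙 a.unop.1) hab)).app m
        (((ℓ a.unop.2.unop).app (op a.unop.1)).app m x) :=
    (congrArg (fun t => (t.app (op a.unop.1)).app m x) (hℓ _ _ hab)).symm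
  show ((ℓ b.unop.2.unop).app (op b.unop.1)).app m ((Q.map f).app m x) =
    (D.map f).app m (((ℓ a.unop.2.unop).app (op a.unop.1)).app m x)
  have h3 : (Q.map f).app m x = (Q.map (gm f.unop.1 (le_refl b.unop.2.unop))).app m
      ((Q.map (gm (𝟙 a.unop.1) hab)).app m x) :=
    (congrArg (fun t => (Q.map t).app m x) h1).trans (sp_comp Q _ _ _)
  have h4 : ∀ z : (D.obj a).obj m, (D.map f).app m z =
      (D.map (gm f.unop.1 (le_refl b.unop.2.unop))).app m
      ((D.map (gm (𝟙 a.unop.1) hab)).app m z) := fun z =>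
    (congrArg (fun t => (D.map t).app m z) h1).trans (sp_comp D _ _ _)
  refine (congrArg (((ℓ b.unop.2.unop).app (op b.unop.1)).app m) h3).trans ?_
  refine Eq.trans ?_ (h4 _).symm
  refine Eq.trans ?_ (congrArg _ h2)
  exact hom_nat (ℓ b.unop.2.unop) (Quiver.Hom.op f.unop.1) _

/-- A sequence of injective fibrations between injectively fibrant objects is injectively
fibrant. -/
theorem injFib_of_levels (h1 : ∀ i, InjFib (level D i))
    (h2 : ∀ (i j : Fin (n + 1)) (h : i ≤ j), InjFibration (levelMap D h)) : InjFib D := by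
  intro P Q g hg f
  have hgk : ∀ k, TrivCof (levelHom g k) := fun k =>
    ⟨fun a => hg.1 (op (a.unop, op k)), fun a => hg.2 (op (a.unop, op k))⟩
  have hstep : ∀ {i k : Fin (n + 1)} (hik : i ≤ k) (s : LSt g f k),
      ∃ t : LSt g f i, t.l ≫ levelMap D hik = levelMap Q hik ≫ s.l := by
    intro i k hik s
    have := h2 i k hik (levelHom g i) (hgk i)
    have sq : CommSq (levelHom f i) (levelHom g i) (levelMap D hik) (levelMap Q hik ≫ s.l) := ⟨by
      rw [levelHom_nat, ← s.hl, ← Category.assoc, ← Category.assoc, levelHom_nat]⟩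
    exact ⟨⟨sq.lift, sq.fac_left⟩, sq.fac_right⟩
  obtain ⟨l0, hl0⟩ := h1 (Fin.last n) (levelHom g _) (hgk _) (levelHom f (Fin.last n))
  let S : ∀ k : Fin (n + 1), LSt g f k := fun k =>
    Fin.reverseInduction (motive := fun k => LSt g f k) ⟨l0, hl0⟩
      (fun i s => (hstep (Fin.castSucc_le_succ i) s).choose) k
  have hS : ∀ i : Fin n, (S i.castSucc).l ≫ levelMap D (Fin.castSucc_le_succ i) =
      levelMap Q (Fin.castSucc_le_succ i) ≫ (S i.succ).l := by
    intro i
    have e1 : S i.castSucc = (hstep (Fin.castSucc_le_succ i) (S i.succ)).choose :=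
      Fin.reverseInduction_castSucc _
    rw [e1]
    exact (hstep (Fin.castSucc_le_succ i) (S i.succ)).choose_spec
  obtain ⟨Φ, hΦ⟩ := lev_assemble (fun k => (S k).l)
    (fun i k hik => lev_compat (ℓ := fun k => (S k).l) hS i k hik)
  refine ⟨Φ, ?_⟩
  refine NatTrans.ext (funext fun a => ?_)
  have e2 : levelHom (g ≫ Φ) a.unop.2.unop = levelHom f a.unop.2.unop := by
    show levelHom g _ ≫ levelHom Φ _ = _
    rw [hΦ]
    exact (S _).hl
  exact NatTrans.congr_app e2 (op a.unop.1)

end Levels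

section Adj

variable {A : Type} [SmallCategory A]

/-- The map given by a vertex of a mapping space. -/
def homOf {X Y : SP A} (φ : MpS X Y (SimplexCategory.mk 0)) : X ⟶ Y where
  app a :=
    { app := fun k => ↾ fun x => φ.app a k (SimplexCategory.const k.unop _ 0) x
      naturality := fun k l α => by
        refine ConcreteCategory.hom_ext _ _ fun x => ?_
        refine Eq.trans ?_ (φ.nat_right a α (SimplexCategory.const k.unop _ 0) x)
        refine congrArg (fun t => φ.app a l t ((X.obj a).map α x)) ?_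
        ext i : 3
        exact Subsingleton.elim (α := Fin 1) _ _ }
  naturality a b f := by
    refine NatTrans.ext (funext fun k => ?_)
    refine ConcreteCategory.hom_ext _ _ fun x => ?_
    exact φ.nat_left f k _ x

lemma homOf_app {X Y : SP A} (φ : MpS X Y (SimplexCategory.mk 0)) (a : Aᵒᵖ)
    (k : SimplexCategoryᵒᵖ) (s : k.unop ⟶ SimplexCategory.mk 0) (x : (X.obj a).obj k) :
    ((homOf φ).app a).app k x = φ.app a k s x := by
  refine congrArg (fun t => φ.app a k t x) ?_
  ext i : 3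
  exact Subsingleton.elim (α := Fin 1) _ _

lemma ofHom_homOf {X Y : SP A} (φ : MpS X Y (SimplexCategory.mk 0)) :
    MpS.ofHom _ (homOf φ) = φ := by
  refine MpS.ext ?_
  funext a k s x
  exact homOf_app φ a k s x

variable {C : Type} [SmallCategory C]

/-- The ends of a map out of a suspension. -/
def EndsEq {B : SP C} {X : SP (Wr C)} (G : V1 B ⟶ X) (x y : Vt X) : Prop :=
  (G.app (op Wr.pt)).app (op (SimplexCategory.mk 0)) (vsEnd B 0 Wr.pt _) = x ∧
  (G.app (op Wr.pt)).app (op (SimplexCategory.mk 0)) (vsEnd B 1 Wr.pt _) = y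

lemma endsV_ofHom {B : SP C} {X : SP (Wr C)} (G : V1 B ⟶ X) {x y : Vt X} (h : EndsEq G x y) :
    (endsV B X).app (op (SimplexCategory.mk 0)) (MpS.ofHom (SimplexCategory.mk 0) G) =
      FL.cst (X.obj (op Wr.pt) ⊗ X.obj (op Wr.pt)) (x, y) (op (SimplexCategory.mk 0)) := by
  rw [FL.cst_zero]
  exact Prod.ext h.1 h.2

/-- Maps into mapping presheaves and maps out of suspensions. -/
theorem exists_hom_of_V1 {B : SP C} {X : SP (Wr C)} (G : V1 B ⟶ X) {x y : Vt X}
    (h : EndsEq G x y) : ∃ g : B ⟶ Hm X x y, ∀ (c : Cᵒᵖ) (l : SimplexCategoryᵒᵖ)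
      (b : (B.obj c).obj l), Hm.val ((g.app c).app l b) =
        (G.app (op (seg c.unop))).app l (vsOf B b) := by
  obtain ⟨e, he⟩ := exists_HmAdj B X x y
  let φ : (Fb (endsV B X) (x, y)).obj (op (SimplexCategory.mk 0)) :=
    ⟨MpS.ofHom (SimplexCategory.mk 0) G, endsV_ofHom G h⟩
  refine ⟨homOf (e.inv.app _ φ : MpS B (Hm X x y) (SimplexCategory.mk 0)), fun c l b => ?_⟩
  exact he (op (SimplexCategory.mk 0)) φ c l (SimplexCategory.const l.unop _ 0) b

theorem exists_V1_of_hom {B : SP C} {X : SP (Wr C)} {x y : Vt X} (g : B ⟶ Hm X x y) :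
    ∃ G : V1 B ⟶ X, EndsEq G x y ∧ ∀ (c : Cᵒᵖ) (l : SimplexCategoryᵒᵖ)
      (b : (B.obj c).obj l), Hm.val ((g.app c).app l b) =
        (G.app (op (seg c.unop))).app l (vsOf B b) := by
  obtain ⟨e, he⟩ := exists_HmAdj B X x y
  let φ : (Fb (endsV B X) (x, y)).obj (op (SimplexCategory.mk 0)) :=
    e.hom.app _ (MpS.ofHom (SimplexCategory.mk 0) g : MpS B (Hm X x y) (SimplexCategory.mk 0))
  have hφ : e.inv.app _ φ = (MpS.ofHom (SimplexCategory.mk 0) g :
      MpS B (Hm X x y) (SimplexCategory.mk 0)) :=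
    ConcreteCategory.congr_hom (NatTrans.congr_app e.hom_inv_id _) _
  have h2 := φ.2.trans (FL.cst_zero _ _)
  refine ⟨homOf (φ.1 : MpS (V1 B) X (SimplexCategory.mk 0)), ⟨?_, ?_⟩, fun c l b => ?_⟩
  · refine (homOf_app _ _ _ (𝟙 _) _).trans ?_
    exact congrArg Prod.fst h2
  · refine (homOf_app _ _ _ (𝟙 _) _).trans ?_
    exact congrArg Prod.snd h2
  · refine Eq.trans ?_ (he (op (SimplexCategory.mk 0)) φ c l (SimplexCategory.const l.unop _ 0) b)
    rw [hφ]
    rfl

theorem V1_hom_ext {B : SP C} {X : SP (Wr C)} {x y : Vt X} {G G' : V1 B ⟶ X}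
    (h : EndsEq G x y) (h' : EndsEq G' x y)
    (hG : ∀ (c : Cᵒᵖ) (l : SimplexCategoryᵒᵖ) (b : (B.obj c).obj l),
      (G.app (op (seg c.unop))).app l (vsOf B b) = (G'.app (op (seg c.unop))).app l (vsOf B b)) :
    G = G' := by
  obtain ⟨e, he⟩ := exists_HmAdj B X x y
  let φ : (Fb (endsV B X) (x, y)).obj (op (SimplexCategory.mk 0)) :=
    ⟨MpS.ofHom (SimplexCategory.mk 0) G, endsV_ofHom G h⟩
  let φ' : (Fb (endsV B X) (x, y)).obj (op (SimplexCategory.mk 0)) :=
    ⟨MpS.ofHom (SimplexCategory.mk 0) G', endsV_ofHom G' h'⟩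
  have h1 : e.inv.app _ φ = e.inv.app _ φ' := by
    refine MpS.ext ?_
    funext c l s b
    refine Subtype.ext ?_
    refine (he _ φ c l s b).trans ((hG c l b).trans ?_)
    exact (he _ φ' c l s b).symm
  have h2 : φ = φ' := by
    have h3 := congrArg (e.hom.app (op (SimplexCategory.mk 0))) h1
    have h4 := ConcreteCategory.congr_hom (NatTrans.congr_app e.inv_hom_id
      (op (SimplexCategory.mk 0))) φ
    have h5 := ConcreteCategory.congr_hom (NatTrans.congr_app e.inv_hom_id
      (op (SimplexCategory.mk 0))) φ'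
    exact h4.symm.trans (h3.trans h5)
  have h5 : MpS.ofHom (SimplexCategory.mk 0) G = MpS.ofHom (SimplexCategory.mk 0) G' :=
    congrArg Subtype.val h2
  refine NatTrans.ext (funext fun a => NatTrans.ext (funext fun k => ?_))
  refine ConcreteCategory.hom_ext _ _ fun x => ?_
  exact congrFun (congrFun (congrFun (congrFun (congrArg MpS.app h5) a) k)
    (SimplexCategory.const k.unop _ 0)) x

end Adj

end Helper41FL2
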