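import Pool.Agent.Helper41.FL2.BiNerve
import Pool.Agent.Helper83.FL.MpFibFinal
import Pool.Agent.Helper58.FL2.Frames

/-!
# The diagrams `(b, c) ↦ X(b) ^ P(c)`
-/

open CategoryTheory MonoidalCategory Simplicial Opposite HomotopicalAlgebra

set_option autoImplicit false

namespace Helper41FL2

open FL

/-- The category with one object and one morphism. -/
abbrev Pt : Type := Discrete PUnit.{1}

/-- The object of the one point category. -/
abbrev pt : Ptᵒᵖ := op ⟨PUnit.unit⟩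

/-- Simplicial sets as simplicial presheaves on the point. -/
def k1 (K : SSet.{0}) : SP Pt := (Functor.const _).obj K

/-- Functoriality. -/
def k1m {K L : SSet.{0}} (f : K ⟶ L) : k1 K ⟶ k1 L := (Functor.const _).map f

lemma ptMor (f : pt ⟶ pt) (X : SP Pt) {k : SimplexCategoryᵒᵖ}
    (x : (X.obj pt).obj k) : (X.map f).app k x = x := by
  have hf : f = 𝟙 _ := Subsingleton.elim _ _
  rw [hf]
  exact sp_id X x

open SSet.modelCategoryQuillen in
theorem k1_injFib {K : SSet.{0}} (hK : SSet.KanComplex K) : InjFib (k1 K) := by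
  intro X Y i hi f
  have h0 : Mono (i.app pt) := hi.1 pt
  have h1 : SSet.KanComplex (⊤_ SSet.{0}) := by
    refine (isFibrant_iff _).2 ?_
    rw [show Limits.terminal.from (⊤_ SSet.{0}) = 𝟙 _ from Limits.terminal.hom_ext _ _]
    infer_instance
  have hl := (Helper85FL.we_iff_lift (i.app pt)).1 (hi.2 pt) (Limits.terminal.from K) hK h1
    ((Helper85FL.kanFib_iff_fibration _).2 ((isFibrant_iff _).1 hK))
  have sq : CommSq (f.app pt : X.obj pt ⟶ K) (i.app pt) (Limits.terminal.from K)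
    (Limits.terminal.from _) := ⟨Limits.terminal.hom_ext _ _⟩
  have hl2 : sq.HasLift := hl.sq_hasLift sq
  refine ⟨{ app := fun a => sq.lift, naturality := ?_ }, ?_⟩
  · rintro ⟨⟨⟨⟩⟩⟩ ⟨⟨⟨⟩⟩⟩ g
    refine NatTrans.ext (funext fun k => ?_)
    refine ConcreteCategory.hom_ext _ _ fun y => ?_
    exact congrArg (sq.lift.app k) (ptMor g Y y)
  · refine NatTrans.ext (funext fun a => ?_)
    exact sq.fac_left

section

variable {K L K' L' : SSet.{0}} {m : SimplexCategory}

/-- Maps `K × Δ[m] ⟶ L`. -/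
abbrev HS1 (K L : SSet.{0}) (m : SimplexCategory) : Type := MpS (k1 K) (k1 L) m

/-- The value of a map `K × Δ[m] ⟶ L`. -/
def HS1.ev (φ : HS1 K L m) (k : SimplexCategoryᵒᵖ) (s : k.unop ⟶ m) (x : K.obj k) : L.obj k :=
  φ.app pt k s x

/-- Constructor. -/
def HS1.mk' (v : ∀ (k : SimplexCategoryᵒᵖ) (_ : k.unop ⟶ m) (_ : K.obj k), L.obj k)
    (h : ∀ {k l : SimplexCategoryᵒᵖ} (g : k ⟶ l) (s : k.unop ⟶ m) (x : K.obj k),
      v l (g.unop ≫ s) (K.map g x) = L.map g (v k s x)) : HS1 K L m where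
  app _ k s x := v k s x
  nat_left _ _ _ _ := rfl
  nat_right _ _ _ g s x := h g s x

lemma HS1.nat (φ : HS1 K L m) {k l : SimplexCategoryᵒᵖ} (g : k ⟶ l) (s : k.unop ⟶ m)
    (x : K.obj k) : φ.ev l (g.unop ≫ s) (K.map g x) = L.map g (φ.ev k s x) :=
  φ.nat_right pt g s x

lemma HS1.ext {φ ψ : HS1 K L m} (h : ∀ (k : SimplexCategoryᵒᵖ) (s : k.unop ⟶ m) (x : K.obj k),
    φ.ev k s x = ψ.ev k s x) : φ = ψ := by
  refine MpS.ext ?_
  funext a k s x
  exact h k s x

end

variable {A : Type} [SmallCategory A]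

/-- The diagram `(b, c) ↦ X(b) ^ P(c)`. -/
def HD (P X : SP A) : SP (A × Aᵒᵖ) where
  obj z := Mp (k1 (P.obj z.unop.2)) (k1 (X.obj (op z.unop.1)))
  map f := Mp.pre (k1m (P.map f.unop.2)) _ ≫ Mp.post _ (k1m (X.map f.unop.1.op))
  map_id z := by
    refine NatTrans.ext (funext fun m => ?_)
    refine ConcreteCategory.hom_ext _ _ fun φ => ?_
    refine HS1.ext fun k s x => ?_
    refine (sp_id X _).trans ?_
    exact congrArg (HS1.ev φ k s) (sp_id P x)
  map_comp f g := by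
    refine NatTrans.ext (funext fun m => ?_)
    refine ConcreteCategory.hom_ext _ _ fun φ => ?_
    refine HS1.ext fun k s x => ?_
    refine (sp_comp X f.unop.1.op g.unop.1.op _).trans ?_
    exact congrArg (fun t => (X.map g.unop.1.op).app k ((X.map f.unop.1.op).app k
      (HS1.ev φ k s t))) (sp_comp P g.unop.2 f.unop.2 x)

lemma HD_map_ev (P X : SP A) {z z' : (A × Aᵒᵖ)ᵒᵖ} (f : z ⟶ z') {m : SimplexCategoryᵒᵖ}
    (φ : HS1 (P.obj z.unop.2) (X.obj (op z.unop.1)) m.unop) (k : SimplexCategoryᵒᵖ)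
    (s : k.unop ⟶ m.unop) (x : (P.obj z'.unop.2).obj k) :
    HS1.ev (((HD P X).map f).app m φ) k s x =
      (X.map f.unop.1.op).app k (HS1.ev φ k s ((P.map f.unop.2).app k x)) := rfl

/-- Restriction along `i : P ⟶ Q`. -/
def HDpre {P Q : SP A} (i : P ⟶ Q) (X : SP A) : HD Q X ⟶ HD P X where
  app z := Mp.pre (k1m (i.app z.unop.2)) _
  naturality z z' f := by
    refine NatTrans.ext (funext fun m => ?_)
    refine ConcreteCategory.hom_ext _ _ fun φ => ?_
    refine HS1.ext fun k s x => ?_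
    show (X.map f.unop.1.op).app k (HS1.ev φ k s
        ((Q.map f.unop.2).app k ((i.app z'.unop.2).app k x))) =
      (X.map f.unop.1.op).app k (HS1.ev φ k s
        ((i.app z.unop.2).app k ((P.map f.unop.2).app k x)))
    exact congrArg (fun t => (X.map f.unop.1.op).app k (HS1.ev φ k s t))
      (hom_nat i f.unop.2 x).symm

lemma HDpre_ev {P Q : SP A} (i : P ⟶ Q) (X : SP A) (z : (A × Aᵒᵖ)ᵒᵖ) (m : SimplexCategoryᵒᵖ)
    (φ : HS1 (Q.obj z.unop.2) (X.obj (op z.unop.1)) m.unop) (k : SimplexCategoryᵒᵖ)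
    (s : k.unop ⟶ m.unop) (x : (P.obj z.unop.2).obj k) :
    HS1.ev (((HDpre i X).app z).app m φ) k s x = HS1.ev φ k s ((i.app z.unop.2).app k x) := rfl

theorem HDpre_trivFib {P Q : SP A} (i : P ⟶ Q) (hi : TrivCof i) {X : SP A} (hX : ObjKan X)
    (z : (A × Aᵒᵖ)ᵒᵖ) : TrivFib ((HDpre i X).app z) :=
  Pool.Agent.Helper83.FL4.Mp_pre_trivFib (k1m (i.app z.unop.2))
    ⟨fun _ => hi.1 z.unop.2, fun _ => hi.2 z.unop.2⟩ (k1_injFib (hX _))

section Convert

variable {P X : SP A}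

lemma BrS.mk_congr {a b : A} {k : SimplexCategory} (σ : Chain A k) {u u' : b ⟶ σ.obj 0}
    {v v' : σ.obj (Fin.last _) ⟶ a} (hu : u = u') (hv : v = v') :
    BrS.mk σ u v = BrS.mk σ u' v' := by
  subst hu
  subst hv
  rfl

/-- The value of a simplex of `(RR A).obj X`. -/
def rv {a : Aᵒᵖ} {k : SimplexCategoryᵒᵖ} (y : (((RR A).obj X).obj a).obj k) (b : Aᵒᵖ)
    (l : SimplexCategoryᵒᵖ) (s : l.unop ⟶ k.unop) (w : BrS a.unop b.unop l.unop) :
    (X.obj b).obj l := MpS.app y b l s w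

lemma rv_ext {a : Aᵒᵖ} {k : SimplexCategoryᵒᵖ} {y y' : (((RR A).obj X).obj a).obj k}
    (h : ∀ (b : Aᵒᵖ) (l : SimplexCategoryᵒᵖ) (s : l.unop ⟶ k.unop)
      (w : BrS a.unop b.unop l.unop), rv y b l s w = rv y' b l s w) : y = y' := by
  refine MpS.ext ?_
  funext b l s w
  exact h b l s w

lemma rv_mapk {a : Aᵒᵖ} {k k' : SimplexCategoryᵒᵖ} (y : (((RR A).obj X).obj a).obj k)
    (α : k ⟶ k') (b : Aᵒᵖ) (l : SimplexCategoryᵒᵖ) (s : l.unop ⟶ k'.unop)
    (w : BrS a.unop b.unop l.unop) :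
    rv ((((RR A).obj X).obj a).map α y) b l s w = rv y b l (s ≫ α.unop) w := rfl

lemma rv_map {a a' : Aᵒᵖ} {k : SimplexCategoryᵒᵖ} (y : (((RR A).obj X).obj a).obj k)
    (g : a ⟶ a') (b : Aᵒᵖ) (l : SimplexCategoryᵒᵖ) (s : l.unop ⟶ k.unop)
    (w : BrS a'.unop b.unop l.unop) :
    rv ((((RR A).obj X).map g).app k y) b l s w = rv y b l s ⟨w.σ, w.u, w.v ≫ g.unop⟩ := rfl

lemma rv_left {a : Aᵒᵖ} {k : SimplexCategoryᵒᵖ} (y : (((RR A).obj X).obj a).obj k)
    {b b' : Aᵒᵖ} (g : b ⟶ b') (l : SimplexCategoryᵒᵖ) (s : l.unop ⟶ k.unop)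
    (w : BrS a.unop b.unop l.unop) :
    rv y b' l s ⟨w.σ, g.unop ≫ w.u, w.v⟩ = (X.map g).app l (rv y b l s w) :=
  MpS.nat_left y g l s w

lemma rv_right {a : Aᵒᵖ} {k : SimplexCategoryᵒᵖ} (y : (((RR A).obj X).obj a).obj k)
    (b : Aᵒᵖ) {l l' : SimplexCategoryᵒᵖ} (α : l ⟶ l') (s : l.unop ⟶ k.unop)
    (w : BrS a.unop b.unop l.unop) :
    rv y b l' (α.unop ≫ s) ⟨w.σ.res α.unop, w.u ≫ w.σ.zeroTo α.unop,
        w.σ.map _ _ (Fin.le_last _) ≫ w.v⟩ = (X.obj b).map α (rv y b l s w) :=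
  MpS.nat_right y b α s w

/-- The family attached to a map into the cobar construction. -/
def famOf (f : P ⟶ (RR A).obj X) : Fam (HD P X) where
  v {k} σ := HS1.mk' (fun l s x => rv ((f.app (op (σ.obj (Fin.last _)))).app l x) (op (σ.obj 0)) l
      (𝟙 _) ⟨σ.res s, σ.zeroTo s, σ.map _ _ (Fin.le_last _)⟩) (by
    intro l l' g s x
    rw [hom_natk, rv_mapk]
    refine Eq.trans ?_ (rv_right ((f.app (op (σ.obj (Fin.last _)))).app l x) (op (σ.obj 0)) g
      (𝟙 _) ⟨σ.res s, σ.zeroTo s, σ.map _ _ (Fin.le_last _)⟩)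
    have e : 𝟙 l'.unop ≫ g.unop = g.unop ≫ 𝟙 _ := by simp
    rw [e]
    refine congrArg (rv _ _ _ _) ?_
    refine BrS.mk_congr (σ.res (g.unop ≫ s)) ?_ ?_
    · exact (σ.map_comp _ _ _ _ _).symm
    · exact (σ.map_comp _ _ _ _ _).symm)
  nat {k l} σ α := by
    refine HS1.ext fun m s x => ?_
    show (X.map (Quiver.Hom.op (σ.map 0 (α.toOrderHom 0) (Fin.zero_le _)))).app m
        (rv ((f.app (op (σ.obj (α.toOrderHom (Fin.last _))))).app m
          ((P.map (Quiver.Hom.op (σ.map (α.toOrderHom (Fin.last _)) (Fin.last _)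
            (Fin.le_last _)))).app m x)) (op (σ.obj (α.toOrderHom 0))) m (𝟙 _)
          ⟨σ.res (s ≫ α), (σ.res α).zeroTo s, (σ.res α).map _ _ (Fin.le_last _)⟩) =
      rv ((f.app (op (σ.obj (Fin.last _)))).app m x) (op (σ.obj 0)) m
      (𝟙 _) ⟨σ.res (s ≫ α), σ.zeroTo (s ≫ α), σ.map _ _ (Fin.le_last _)⟩
    rw [hom_nat, rv_map, ← rv_left]
    refine congrArg (rv _ _ _ _) ?_
    refine BrS.mk_congr (σ.res (s ≫ α)) ?_ ?_
    · exact σ.map_comp _ _ _ _ _
    · exact σ.map_comp _ _ _ _ _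

lemma famOf_ev (f : P ⟶ (RR A).obj X) {k : SimplexCategory} (σ : Chain A k)
    (l : SimplexCategoryᵒᵖ) (s : l.unop ⟶ k)
    (x : (P.obj (op (σ.obj (Fin.last _)))).obj l) :
    HS1.ev ((famOf f).v σ) l s x =
      rv ((f.app (op (σ.obj (Fin.last _)))).app l x) (op (σ.obj 0)) l
      (𝟙 _) ⟨σ.res s, σ.zeroTo s, σ.map _ _ (Fin.le_last _)⟩ := rfl

/-- The value of a family. -/
def fv (g : Fam (HD P X)) {k : SimplexCategory} (σ : Chain A k)
    (l : SimplexCategoryᵒᵖ) (s : l.unop ⟶ k)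
    (x : (P.obj (op (σ.obj (Fin.last _)))).obj l) : (X.obj (op (σ.obj 0))).obj l :=
  HS1.ev (g.v σ) l s x

lemma fv_nat (g : Fam (HD P X)) {k : SimplexCategory} (σ : Chain A k)
    {l l' : SimplexCategoryᵒᵖ} (α : l ⟶ l') (s : l.unop ⟶ k)
    (x : (P.obj (op (σ.obj (Fin.last _)))).obj l) :
    fv g σ l' (α.unop ≫ s) ((P.obj _).map α x) = (X.obj _).map α (fv g σ l s x) :=
  HS1.nat (g.v σ) α s x

lemma fv_res (g : Fam (HD P X)) {k k' : SimplexCategory} (σ : Chain A k) (α : k' ⟶ k)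
    (l : SimplexCategoryᵒᵖ) (s : l.unop ⟶ k')
    (x : (P.obj (op (σ.obj (Fin.last _)))).obj l) :
    (X.map (σ.zeroTo α).op).app l (fv g (σ.res α) l s
      ((P.map (Quiver.Hom.op (σ.map (α.toOrderHom (Fin.last _)) (Fin.last _)
            (Fin.le_last _)))).app l x)) = fv g σ l (s ≫ α) x :=
  congrArg (fun t => HS1.ev (K := P.obj (op (σ.obj (Fin.last _))))
    (L := X.obj (op (σ.obj 0))) t l s x) (g.nat σ α)

/-- The map into the cobar construction attached to a family. -/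
def ofFam (g : Fam (HD P X)) : P ⟶ (RR A).obj X where
  app a :=
    { app := fun k => ↾ fun y =>
        ({ app := fun b l s w => (X.map (Quiver.Hom.op (BrS.u w))).app l (fv g (BrS.σ w) l (𝟙 _)
            ((P.map (Quiver.Hom.op (BrS.v w))).app l ((P.obj a).map s.op y)))
           nat_left := fun {b b'} h l s w => by
            exact sp_comp X (Quiver.Hom.op (BrS.u w)) h _
           nat_right := fun b {l l'} α s w => by
            obtain ⟨σ, u, v⟩ := w
            show (X.map (Quiver.Hom.op (u ≫ σ.zeroTo α.unop))).app l'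
                (fv g (σ.res α.unop) l' (𝟙 _)
                  ((P.map (Quiver.Hom.op (σ.map (α.unop.toOrderHom (Fin.last _)) (Fin.last _)
                    (Fin.le_last _) ≫ v))).app l'
                    ((P.obj a).map (s.op ≫ α) y))) =
              (X.obj b).map α ((X.map (Quiver.Hom.op u)).app l (fv g σ l (𝟙 _)
                ((P.map (Quiver.Hom.op v)).app l ((P.obj a).map s.op y))))
            refine (congrArg _ (congrArg (fv g (σ.res α.unop) l' (𝟙 _))
              (sp_comp P v.op (σ.map (α.unop.toOrderHom (Fin.last _)) (Fin.last _)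
                    (Fin.le_last _)).op _))).trans ?_
            refine (sp_comp X (σ.zeroTo α.unop).op u.op _).trans ?_
            refine Eq.trans ?_ (sp_nat X u.op α _)
            refine congrArg ((X.map u.op).app l') ?_
            refine (fv_res g σ α.unop l' (𝟙 _) _).trans ?_
            refine Eq.trans ?_ (fv_nat g σ α (𝟙 _) _)
            refine congrArg₂ (fv g σ l') ?_ ?_
            · simp
            · rw [sset_comp]
              exact sp_nat P v.op α _ } : MpS (Bro a.unop) X k.unop)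
      naturality := fun k k' α => by
        refine ConcreteCategory.hom_ext _ _ fun y => ?_
        refine rv_ext fun b l s w => ?_
        exact congrArg (fun t => (X.map (Quiver.Hom.op (BrS.u w))).app l (fv g (BrS.σ w) l (𝟙 _)
            ((P.map (Quiver.Hom.op (BrS.v w))).app l t))) (sset_comp (P.obj a) α s.op y).symm }
  naturality a a' h := by
    refine NatTrans.ext (funext fun k => ?_)
    refine ConcreteCategory.hom_ext _ _ fun y => ?_
    refine rv_ext fun b l s w => ?_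
    show (X.map (Quiver.Hom.op (BrS.u w))).app l (fv g (BrS.σ w) l (𝟙 _)
            ((P.map (Quiver.Hom.op (BrS.v w))).app l
              ((P.obj a').map s.op ((P.map h).app k y)))) =
      (X.map (Quiver.Hom.op (BrS.u w))).app l (fv g (BrS.σ w) l (𝟙 _)
            ((P.map (Quiver.Hom.op (BrS.v w ≫ h.unop))).app l
              ((P.obj a).map s.op y)))
    refine congrArg (fun t => (X.map (Quiver.Hom.op (BrS.u w))).app l
      (fv g (BrS.σ w) l (𝟙 _) t)) ?_
    rw [← sp_nat]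
    exact (sp_comp P h (BrS.v w).op _).symm

lemma ofFam_rv (g : Fam (HD P X)) {a : Aᵒᵖ} {k : SimplexCategoryᵒᵖ} (y : (P.obj a).obj k)
    (b : Aᵒᵖ) (l : SimplexCategoryᵒᵖ) (s : l.unop ⟶ k.unop) (w : BrS a.unop b.unop l.unop) :
    rv (((ofFam g).app a).app k y) b l s w = (X.map (Quiver.Hom.op w.u)).app l
      (fv g w.σ l (𝟙 _) ((P.map (Quiver.Hom.op w.v)).app l ((P.obj a).map s.op y))) := rfl

end Convert

theorem RR_ext {P Q X : SP A} (hX : ObjKan X) (i : P ⟶ Q) (hi : TrivCof i)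
    (f : P ⟶ (RR A).obj X) : ∃ g : Q ⟶ (RR A).obj X, i ≫ g = f := by
  obtain ⟨g, hg⟩ := Fam.lift (HDpre i X) (HDpre_trivFib i hi hX) (famOf f)
  refine ⟨ofFam g, ?_⟩
  refine NatTrans.ext (funext fun a => NatTrans.ext (funext fun k => ?_))
  refine ConcreteCategory.hom_ext _ _ fun y => ?_
  refine rv_ext fun b l s w => ?_
  obtain ⟨σ, u, v⟩ := w
  show rv (((ofFam g).app a).app k ((i.app a).app k y)) b l s ⟨σ, u, v⟩ =
    rv ((f.app a).app k y) b l s ⟨σ, u, v⟩
  rw [ofFam_rv]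
  show (X.map (Quiver.Hom.op u)).app l (fv g σ l (𝟙 _) ((Q.map (Quiver.Hom.op v)).app l
    ((Q.obj a).map s.op ((i.app a).app k y)))) = _
  rw [← hom_natk, ← hom_nat]
  have h1 := congrArg (fun t => HS1.ev (K := P.obj (op (σ.obj (Fin.last _))))
    (L := X.obj (op (σ.obj 0))) t l (𝟙 _) ((P.map (Quiver.Hom.op v)).app l
      ((P.obj a).map s.op y))) (hg σ)
  have h2 : fv g σ l (𝟙 _) ((i.app (op (σ.obj (Fin.last _)))).app l
      ((P.map (Quiver.Hom.op v)).app l ((P.obj a).map s.op y))) =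
      rv ((f.app (op (σ.obj (Fin.last _)))).app l ((P.map (Quiver.Hom.op v)).app l
      ((P.obj a).map s.op y))) (op (σ.obj 0)) l
      (𝟙 _) ⟨σ.res (𝟙 _), σ.zeroTo (𝟙 _), σ.map _ _ (Fin.le_last _)⟩ := h1
  rw [h2, hom_nat, rv_map, ← rv_left, hom_natk, rv_mapk]
  have e : 𝟙 l.unop ≫ s.op.unop = s := Category.id_comp s
  rw [e]
  refine congrArg (rv _ _ _ _) ?_
  refine BrS.mk_congr σ ?_ ?_
  · exact (congrArg (u ≫ ·) (σ.map_id 0)).trans (Category.comp_id u)
  · exact (congrArg (· ≫ v) (σ.map_id _)).trans (Category.id_comp v)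

theorem RR_injFib {X : SP A} (hX : ObjKan X) : InjFib ((RR A).obj X) :=
  fun _ _ i hi f => RR_ext hX i hi f

end Helper41FL2
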